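import Pool.Agent.MP_6b3e96_gt.H77.Gen

/-!
Verified checks: positivity on boxes, identities and integrals of polynomial expressions.
-/

open Finset

namespace Pool.Agent.MP_6b3e96_gt.H77

variable {P : Type} {p : KP} {X Y Z : P → ℂ} {D : Set P} {v : KV} {f : P → ℝ}

/-- The constant coefficient dominates the others. -/
def KV.pos (p : KP) (v : KV) : Bool :=
  v.ok p && Nat.blt v.a p.az && Nat.blt v.b p.aw &&
    decide ((v.l1 p : ℤ) ≤ 2 * dgt p.β (v.len p) (v.b + p.aw * v.a) v.n)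

lemma Rel.nonneg (h : Rel p X Y Z D v f) (hk : v.pos p = true) {x : P} (hx : x ∈ D)
    (h1 : ‖X x‖ = 1) (h2 : ‖Y x‖ = 1) (h3 : ‖Z x‖ ≤ 1) : 0 ≤ f x := by
  simp only [KV.pos, Bool.and_eq_true, Nat.blt_eq, decide_eq_true_eq] at hk
  obtain ⟨⟨⟨k1, k2⟩, k3⟩, k4⟩ := hk
  obtain ⟨c, c0, c1, c3, c2⟩ := h.coef k1
  have e1 : (v.b + p.aw * v.a) / p.aw = v.a := by
    rw [Nat.add_mul_div_left _ _ (by omega), Nat.div_eq_of_lt k3, zero_add]
  have hm : v.b + p.aw * v.a ∈ range (v.len p) := by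
    have h6 := Nat.mul_le_mul_left p.aw (show v.a + 1 ≤ p.az from k2)
    have h7 := Nat.le_mul_of_pos_right (p.aw * p.az) (show 0 < v.dd + 1 by omega)
    rw [mul_add, mul_one] at h6
    rw [mem_range, KV.len]; omega
  rw [KV.l1, c3, l1n_eq (KV.ok_le k1).2.2 c0 c1, dgt_eq (KV.ok_le k1).2.2 c0 (mem_range.1 hm),
    ← add_sum_erase _ _ hm] at k4
  have h4 := c2 x hx
  rw [← add_sum_erase _ _ hm, e1, Nat.add_mul_mod_self_left, Nat.mod_eq_of_lt k2, Nat.mod_eq_of_lt k3,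
    Nat.div_eq_of_lt k2, pow_zero, mul_one, ← sub_eq_iff_eq_add', mul_assoc, ← mul_assoc,
    ← sub_mul] at h4
  have h5 := congrArg norm h4
  simp only [norm_mul, norm_pow, h1, h2, one_pow, mul_one] at h5
  have h6 : |f x * 2 ^ v.e - c (v.b + p.aw * v.a)| ≤
      ∑ m ∈ (range (v.len p)).erase (v.b + p.aw * v.a), |(c m : ℝ)| := by
    rw [← Real.norm_eq_abs, ← Complex.norm_real]
    push_cast
    rw [h5]
    refine norm_sum_le_of_le _ fun m _ => ?_
    simp only [norm_mul, norm_pow, h1, h2, one_pow, one_mul, Complex.norm_intCast]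
    exact mul_le_of_le_one_right (abs_nonneg _) (pow_le_one₀ (norm_nonneg _) h3)
  have h7 : |(c (v.b + p.aw * v.a) : ℝ)| + ∑ m ∈ (range (v.len p)).erase (v.b + p.aw * v.a),
      |(c m : ℝ)| ≤ 2 * c (v.b + p.aw * v.a) := by
    push_cast at k4
    exact_mod_cast k4
  have h8 := (abs_le.1 h6).1
  have h9 := le_abs_self (c (v.b + p.aw * v.a) : ℝ)
  exact nonneg_of_mul_nonneg_left (by linarith : 0 ≤ f x * 2 ^ v.e) (by positivity)

/-- A point of the unit circle attached to a point of an interval. -/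
noncomputable def circ (c h : ℤ) (e : ℕ) (s : ℝ) : ℂ :=
  Complex.exp (Real.arccos ((2 ^ e * s - c) / (2 * h)) * Complex.I)

lemma norm_circ (c h : ℤ) (e : ℕ) (s : ℝ) : ‖circ c h e s‖ = 1 := Complex.norm_exp_ofReal_mul_I _

lemma circ_eq {c h : ℤ} {e : ℕ} {s : ℝ} (h0 : 0 < h) (hs : |2 ^ e * s - c| ≤ 2 * h) :
    (s : ℂ) * (2 ^ e * circ c h e s) = c * circ c h e s + (h * circ c h e s ^ 2 + h) := by
  have h1 : (0 : ℝ) < h := by exact_mod_cast h0
  have h2 := abs_le.1 hs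
  have h3 := Real.cos_arccos (x := (2 ^ e * s - c) / (2 * h)) (by rw [le_div_iff₀ (by positivity)]; linarith)
    (by rw [div_le_iff₀ (by positivity)]; linarith)
  unfold circ
  generalize Real.arccos _ = θ at *
  rw [eq_div_iff (by positivity)] at h3
  have h4 := congrArg Complex.ofReal h3
  push_cast at h4
  rw [Complex.exp_mul_I]
  linear_combination (-(Complex.cos θ + Complex.sin θ * Complex.I)) * h4 +
    h * Complex.sin_sq_add_cos_sq θ - h * Complex.sin θ ^ 2 * (Complex.I_sq)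

/-- The packed value of `(c + h (Y + 1 / Y)) / 2 ^ e`. -/
def KV.chY (p : KP) (c h : ℤ) (e : ℕ) : KV :=
  ⟨h + c <<< p.β + h <<< (2 * p.β), h.natAbs + c.natAbs + h.natAbs, e, 0, 1, 0, 2, 0⟩

/-- The packed value of `(c + h (X + 1 / X)) / 2 ^ e`. -/
def KV.chX (p : KP) (c h : ℤ) (e : ℕ) : KV :=
  ⟨h + c <<< (p.β * p.aw) + h <<< (2 * (p.β * p.aw)), h.natAbs + c.natAbs + h.natAbs, e, 1, 0, 2, 0, 0⟩

lemma Rel.chY {c h : ℤ} {e : ℕ} (H : ∀ x ∈ D, (f x : ℂ) * (2 ^ e * Y x) = c * Y x + (h * Y x ^ 2 + h)) :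
    Rel p X Y Z D (KV.chY p c h e) f := by
  refine ⟨[((0, 0, 0), h), ((0, 1, 0), c), ((0, 2, 0), h)], by simp [KV.chY],
    by simp [KV.chY, ML.nm, add_assoc], ?_, fun x hx => ?_⟩
  · simp only [ML.ev, KV.chY, Int.shiftLeft_eq, List.map_cons, List.map_nil, List.sum_cons,
      List.sum_nil, Int.cast_id]
    ring
  · simp only [ML.ev, KV.chY, List.map_cons, List.map_nil, List.sum_cons, List.sum_nil]
    linear_combination H x hx

lemma Rel.chX {c h : ℤ} {e : ℕ} (H : ∀ x ∈ D, (f x : ℂ) * (2 ^ e * X x) = c * X x + (h * X x ^ 2 + h)) :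
    Rel p X Y Z D (KV.chX p c h e) f := by
  refine ⟨[((0, 0, 0), h), ((1, 0, 0), c), ((2, 0, 0), h)], by simp [KV.chX],
    by simp [KV.chX, ML.nm, add_assoc], ?_, fun x hx => ?_⟩
  · simp only [ML.ev, KV.chX, Int.shiftLeft_eq, List.map_cons, List.map_nil, List.sum_cons,
      List.sum_nil, Int.cast_id]
    ring
  · simp only [ML.ev, KV.chX, List.map_cons, List.map_nil, List.sum_cons, List.sum_nil]
    linear_combination H x hx

/-- Polynomial expressions in three variables. -/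
abbrev Ex := ∀ (α : Type) [Add α] [Mul α] [Sub α] [Cst α], α → α → α → α

/-- Evaluation commutes with the expression. -/
def Ex.Hom (G : Ex) : Prop :=
  ∀ (p : KP) (X Y Z : ℝ × ℝ × ℝ → ℂ) (D : Set (ℝ × ℝ × ℝ)) (a b c : RV p X Y Z D) (x : ℝ × ℝ × ℝ),
    (G _ a b c).f x = G ℝ (a.f x) (b.f x) (c.f x)

/-- The packed value of an expression in `d, s, q` on the box
`|2 ^ e s - c| ≤ 2 h`, `|2 ^ e' q - c'| ≤ 2 h'`. -/
noncomputable def Ex.box (G : Ex) (p : KP) (c h : ℤ) (e : ℕ) (c' h' : ℤ) (e' : ℕ) :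
    RV p (fun x : ℝ × ℝ × ℝ => circ c' h' e' x.2.2) (fun x => circ c h e x.2.1) (fun x => x.1)
      {x | (0 < h ∧ |2 ^ e * x.2.1 - c| ≤ 2 * h) ∧ 0 < h' ∧ |2 ^ e' * x.2.2 - c'| ≤ 2 * h'} :=
  G _ ⟨_, fun x => x.1, Rel.mon 1 0 0 0 0 0 1 fun x _ => by simp⟩
    ⟨_, fun x => x.2.1, Rel.chY fun _ hx => circ_eq hx.1.1 hx.1.2⟩
    ⟨_, fun x => x.2.2, Rel.chX fun _ hx => circ_eq hx.2.1 hx.2.2⟩

lemma exists_cell (k : ℕ) {t : ℝ} (h0 : 0 ≤ t) (h1 : t ≤ 1) :
    ∃ i : ℕ, i < 2 ^ k ∧ (i : ℝ) ≤ 2 ^ k * t ∧ 2 ^ k * t ≤ i + 1 := by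
  have h2 : (0 : ℝ) < 2 ^ k := by positivity
  rcases h1.eq_or_lt with rfl | h1
  · obtain ⟨i, hi⟩ := Nat.exists_eq_succ_of_ne_zero (show 2 ^ k ≠ 0 by positivity)
    have h3 : (2 : ℝ) ^ k = i + 1 := by exact_mod_cast hi
    exact ⟨i, by omega, by linarith, by linarith⟩
  · refine ⟨⌊2 ^ k * t⌋₊, (Nat.floor_lt (by positivity)).2 (by push_cast; nlinarith),
      Nat.floor_le (by positivity), (Nat.lt_floor_add_one _).le⟩

/-- Positivity on `|d| ≤ 1`, `0 ≤ s ≤ 1`, `a ≤ 2 ^ e q ≤ a + 4 h`, checked on a grid of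
`2 ^ k` times `2 ^ l` boxes. -/
theorem Ex.grid {G : Ex} (hG : G.Hom) (p : KP) (k l : ℕ) (a h : ℤ) (e : ℕ) (hh : 0 < h)
    (chk : ((List.range (2 ^ k)).all fun i => (List.range (2 ^ l)).all fun j =>
      (G.box p (4 * i + 2) 1 (k + 2) (2 ^ l * a + h * (4 * j + 2)) h (e + l)).v.pos p) = true)
    {d s q : ℝ} (hd : |d| ≤ 1) (s0 : 0 ≤ s) (s1 : s ≤ 1) (q0 : a ≤ 2 ^ e * q)
    (q1 : 2 ^ e * q ≤ a + 4 * h) : 0 ≤ G ℝ d s q := by
  have h0 : (0 : ℝ) < h := by exact_mod_cast hh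
  obtain ⟨i, i0, i1, i2⟩ := exists_cell k s0 s1
  obtain ⟨j, j0, j1, j2⟩ := exists_cell l (t := (2 ^ e * q - a) / (4 * h)) (by
    apply div_nonneg <;> linarith) (by rw [div_le_one (by positivity)]; linarith)
  rw [← mul_div_assoc, le_div_iff₀ (by positivity)] at j1
  rw [← mul_div_assoc, div_le_iff₀ (by positivity)] at j2
  simp only [List.all_eq_true, List.mem_range] at chk
  have h1 := (G.box p _ 1 _ _ h _).r.nonneg (chk i i0 j j0) (x := (d, s, q))
    ⟨⟨one_pos, by rw [abs_le, pow_add]; push_cast; constructor <;> linarith⟩, hh,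
      by rw [abs_le, pow_add]; push_cast; constructor <;> linarith⟩
    (norm_circ _ _ _ _) (norm_circ _ _ _ _) (by simpa using hd)
  rwa [Ex.box, hG] at h1

/-- An absolute bound on `|d| ≤ 1`, `0 ≤ s ≤ 1`, `|2 ^ e q - c| ≤ 2 h`. -/
theorem Ex.bound {G : Ex} (hG : G.Hom) (p : KP) (c h : ℤ) (e N : ℕ) (hh : 0 < h) (hN : 0 < N)
    (B : ℕ) (chk : ((G.box p 2 1 2 c h e).v.ok p &&
      Nat.ble ((G.box p 2 1 2 c h e).v.l1 p * N) (B <<< (G.box p 2 1 2 c h e).v.e)) = true)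
    {d s q : ℝ} (hd : |d| ≤ 1) (s0 : 0 ≤ s) (s1 : s ≤ 1) (hq : |2 ^ e * q - c| ≤ 2 * h) :
    |G ℝ d s q| ≤ B / N := by
  simp only [Bool.and_eq_true, Nat.ble_eq, Nat.shiftLeft_eq] at chk
  have h1 := (G.box p 2 1 2 c h e).r.bound chk.1 (x := (d, s, q))
    ⟨⟨one_pos, by rw [abs_le]; push_cast; constructor <;> linarith⟩, hh, hq⟩
    (norm_circ _ _ _ _) (norm_circ _ _ _ _) (by simpa using hd)
  rw [show (G.box p 2 1 2 c h e).f (d, s, q) = G ℝ d s q from hG ..] at h1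
  have h2 : ((G.box p 2 1 2 c h e).v.l1 p : ℝ) * N ≤ B * 2 ^ (G.box p 2 1 2 c h e).v.e := by
    exact_mod_cast chk.2
  rw [le_div_iff₀ (by positivity)]
  refine le_of_mul_le_mul_right (a := 2 ^ (G.box p 2 1 2 c h e).v.e) ?_ (by positivity)
  nlinarith [mul_le_mul_of_nonneg_right h1 (Nat.cast_nonneg (α := ℝ) N)]

/-- The packed value of an expression in the monomial basis. -/
noncomputable def Ex.mono (G : Ex) (p : KP) :
    RV p (fun x : ℝ × ℝ × ℝ => x.2.2) (fun x => x.2.1) (fun x => x.1) Set.univ :=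
  G _ ⟨_, fun x => x.1, Rel.mon 1 0 0 0 0 0 1 fun x _ => by simp⟩
    ⟨_, fun x => x.2.1, Rel.mon 1 0 0 0 0 1 0 fun x _ => by simp⟩
    ⟨_, fun x => x.2.2, Rel.mon 1 0 0 0 1 0 0 fun x _ => by simp⟩

lemma Ex.coef {G : Ex} (hG : G.Hom) {p : KP} (h1 : (G.mono p).v.ok p = true)
    (h2 : (G.mono p).v.a + (G.mono p).v.b = 0) :
    ∃ c : ℕ → ℤ, ∑ m ∈ range ((G.mono p).v.len p), (c m).natAbs ≤ (G.mono p).v.l ∧
      (G.mono p).v.n = ∑ m ∈ range ((G.mono p).v.len p), c m * (2 ^ p.β) ^ m ∧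
      ((G.mono p).v.l1 p = ∑ m ∈ range ((G.mono p).v.len p), (c m).natAbs) ∧
      ∀ d s q : ℝ, G ℝ d s q = (∑ m ∈ range ((G.mono p).v.len p),
        c m * (q ^ (m / p.aw % p.az) * s ^ (m % p.aw) * d ^ (m / p.aw / p.az))) / 2 ^ (G.mono p).v.e := by
  obtain ⟨c, c0, c1, c3, c2⟩ := (G.mono p).r.coef h1
  refine ⟨c, c1, c3, by rw [KV.l1, c3, l1n_eq (KV.ok_le h1).2.2 c0 c1], fun d s q => ?_⟩
  have h3 := c2 (d, s, q) trivial
  rw [show (G.mono p).v.a = 0 by omega, show (G.mono p).v.b = 0 by omega, pow_zero, pow_zero, mul_one,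
    mul_one, show (G.mono p).f (d, s, q) = G ℝ d s q from hG ..] at h3
  rw [eq_div_iff (by positivity)]
  exact_mod_cast h3

/-- Polynomial identities. -/
theorem Ex.zero {G : Ex} (hG : G.Hom) (p : KP) (chk : ((G.mono p).v.ok p &&
    Nat.beq ((G.mono p).v.a + (G.mono p).v.b + (G.mono p).v.l1 p) 0) = true) (d s q : ℝ) :
    G ℝ d s q = 0 := by
  simp only [Bool.and_eq_true, Nat.beq_eq] at chk
  obtain ⟨c, -, -, c1, c2⟩ := Ex.coef hG chk.1 (by omega)
  rw [show (G.mono p).v.l1 p = 0 by omega, eq_comm, sum_eq_zero_iff] at c1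
  rw [c2, sum_eq_zero fun m hm => by simp [Int.natAbs_eq_zero.1 (c1 m hm)], zero_div]

/-- The weights of integration, packed in reverse order. -/
def wts (p : KP) (L K : ℕ) : ℕ :=
  Nat.rec 0 (fun m w => w <<< p.β + L / (m % p.aw + 1) * (L / (m / p.aw % p.az + 1))) K

lemma wts_eq (p : KP) (L K : ℕ) : wts p L K = ∑ m ∈ range K,
    L / (m % p.aw + 1) * (L / (m / p.aw % p.az + 1)) * (2 ^ p.β) ^ (K - 1 - m) := by
  induction K with
  | zero => rfl
  | succ K ih =>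
    rw [sum_range_succ, show wts p L (K + 1) = wts p L K <<< p.β + _ from rfl, ih, Nat.shiftLeft_eq,
      sum_mul]
    simp only [Nat.add_sub_cancel, Nat.sub_self, pow_zero, mul_one]
    congr 1
    refine sum_congr rfl fun m hm => ?_
    rw [mul_assoc, ← pow_succ, show K - 1 - m + 1 = K - m by have := mem_range.1 hm; omega]

lemma dgt_conv {β K l L : ℕ} (hK : 0 < K) (hl : 2 * (l * (K * L)) + 2 ≤ 2 ^ β) {c : ℕ → ℤ}
    (hc : ∑ m ∈ range K, (c m).natAbs ≤ l) {w : ℕ → ℕ} (hw : ∀ m, w m ≤ L) :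
    dgt β (2 * K) (K - 1) ((∑ m ∈ range K, c m * (2 ^ β) ^ m) *
      (∑ m ∈ range K, w m * (2 ^ β) ^ (K - 1 - m) : ℕ)) = ∑ m ∈ range K, c m * w m := by
  have h1 := dgt_eq (K := 2 * K) (i := K - 1) hl (c := fun t => ∑ m ∈ range K, ∑ m' ∈ range K,
    if t = m + (K - 1 - m') then c m * w m' else 0) (fun t => ?_) (by omega)
  · convert h1 using 2
    · simp only [sum_mul, ite_mul, zero_mul]
      rw [sum_comm]
      refine sum_congr rfl fun m hm => ?_
      rw [sum_comm, Nat.cast_sum, mul_sum]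
      refine sum_congr rfl fun m' _ => ?_
      rw [sum_ite_eq', if_pos (by have := mem_range.1 hm; rw [mem_range]; omega)]
      push_cast
      ring
    · rename_i m hm
      rw [sum_eq_single_of_mem m hm fun m' hm' h => if_neg (by
        have := mem_range.1 hm; have := mem_range.1 hm'; omega),
        if_pos (by have := mem_range.1 hm; omega)]
  · refine (Int.natAbs_sum_le _ _).trans (le_trans (sum_le_sum fun m _ => ?_)
      ((sum_mul _ _ _).ge.trans (Nat.mul_le_mul_right _ hc)))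
    refine (Int.natAbs_sum_le _ _).trans ((sum_le_card_nsmul _ _ ((c m).natAbs * L)
      fun m' _ => ?_).trans (by simp [mul_left_comm]))
    split_ifs
    · rw [Int.natAbs_mul, Int.natAbs_natCast]; exact Nat.mul_le_mul_left _ (hw _)
    · simp

/-- The integral over the unit square, times `L ^ 2 2 ^ e`. -/
def KV.int (p : KP) (L : ℕ) (v : KV) : ℤ :=
  dgt p.β (2 * v.len p) (v.len p - 1) (v.n * wts p L (v.len p))

/-- The size conditions for integration. -/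
def KV.oki (p : KP) (L : ℕ) (v : KV) : Bool :=
  v.ok p && Nat.beq (v.a + v.b) 0 && Nat.ble (2 * (v.l * (v.len p * (L * L))) + 2) (1 <<< p.β)

/-- Integrals of polynomials. -/
theorem Ex.integral {G : Ex} (hG : G.Hom) (p : KP) (L : ℕ) (chk : (G.mono p).v.oki p L = true)
    (hL : 0 < L) (h1 : ∀ i < max p.aw p.az, (i + 1) ∣ L) :
    ∫ s in (0 : ℝ)..1, ∫ q in (0 : ℝ)..1, G ℝ 1 s q =
      (G.mono p).v.int p L / (L ^ 2 * 2 ^ (G.mono p).v.e) := by
  simp only [KV.oki, Bool.and_eq_true, Nat.beq_eq, Nat.ble_eq, Nat.one_shiftLeft] at chk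
  obtain ⟨c, c1, c3, -, c2⟩ := Ex.coef hG chk.1.1 chk.1.2
  have k1 := KV.ok_le chk.1.1
  simp only [c2, intervalIntegral.integral_div]
  rw [KV.int, wts_eq, c3, dgt_conv (K := (G.mono p).v.len p)
    (w := fun m => L / (m % p.aw + 1) * (L / (m / p.aw % p.az + 1)))
    (Nat.mul_pos (Nat.mul_pos (by omega) (by omega)) (by omega)) chk.2 c1
    fun m => Nat.mul_le_mul (Nat.div_le_self _ _) (Nat.div_le_self _ _), ← div_div]
  congr 1
  have h2 : ∀ s : ℝ, ∫ q in (0 : ℝ)..1, ∑ m ∈ range ((G.mono p).v.len p),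
      c m * (q ^ (m / p.aw % p.az) * s ^ (m % p.aw) * 1 ^ (m / p.aw / p.az)) =
      ∑ m ∈ range ((G.mono p).v.len p), c m / ((m / p.aw % p.az : ℕ) + 1) * s ^ (m % p.aw) := fun s => by
    rw [intervalIntegral.integral_finsetSum fun m _ => Continuous.intervalIntegrable (by fun_prop) _ _]
    refine sum_congr rfl fun m _ => ?_
    simp only [one_pow, mul_one, intervalIntegral.integral_const_mul, intervalIntegral.integral_mul_const,
      integral_pow, ne_eq, Nat.add_eq_zero_iff, one_ne_zero, and_false, not_false_eq_true, zero_pow]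
    ring
  simp only [h2]
  rw [intervalIntegral.integral_finsetSum fun m _ => Continuous.intervalIntegrable (by fun_prop) _ _,
    Int.cast_sum, sum_div]
  refine sum_congr rfl fun m _ => ?_
  have h3 := h1 (m % p.aw) (lt_max_of_lt_left (Nat.mod_lt _ (by omega)))
  have h4 := h1 (m / p.aw % p.az) (lt_max_of_lt_right (Nat.mod_lt _ (by omega)))
  simp only [intervalIntegral.integral_const_mul, integral_pow, Int.cast_mul, Int.cast_natCast,
    Nat.cast_mul]
  rw [Nat.cast_div h3 (by positivity), Nat.cast_div h4 (by positivity)]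
  simp only [one_pow, ne_eq, Nat.add_eq_zero_iff, one_ne_zero, and_false, not_false_eq_true, zero_pow]
  push_cast
  field_simp
  ring

end Pool.Agent.MP_6b3e96_gt.H77
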