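import Pool.Agent.MP_6b3e96_gt.H77.Basic

/-!
Statements of the independent steps.
-/

open scoped ContDiff Topology RealInnerProductSpace MeasureTheory Real
open Set Filter Metric MeasureTheory Complex

noncomputable section

namespace Pool.Agent.MP_6b3e96_gt.H77

/-- Fixed point of the semilinear equation `- Δ v - (9 / 5) v = g d w v` with Neumann conditions on
the square, depending continuously on the parameter `d`. -/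
def FixStmt : Prop :=
  ∀ (g : ℝ → ℂ → ℝ → ℝ) (β : ℂ → ℝ) (ε η₀ η₁ a b : ℝ), 0 ≤ η₀ → 0 ≤ η₁ → 0 ≤ a → 0 ≤ b →
    (∀ d, Measurable fun p : ℂ × ℝ => g d p.1 p.2) → Measurable β → (∀ w ∈ Sq, 0 ≤ β w ∧ β w ≤ 10) →
    ∫ w in Sq, β w ^ 2 ≤ a ^ 2 →
    (∀ d ∈ Icc (-1 : ℝ) 1, ∀ w ∈ Sq, w ≠ 0 → |g d w 0| ≤ η₁ + η₀ / mx w) →
    (∀ d ∈ Icc (-1 : ℝ) 1, ∀ w ∈ Sq, w ≠ 0 → ∀ x y, |x| ≤ ε → |y| ≤ ε →
      |g d w x - g d w y| ≤ (β w + b / mx w) * |x - y|) →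
    (∀ d w x, g d (swp w) x = g d w x) →
    (∀ e > 0, ∃ δ > 0, ∀ d ∈ Icc (-1 : ℝ) 1, ∀ d' ∈ Icc (-1 : ℝ) 1, |d - d'| < δ →
      ∀ w ∈ Sq, w ≠ 0 → ∀ x, |x| ≤ ε → |g d w x - g d' w x| ≤ e / mx w) →
    0.65 * a + 4.2 * b ≤ 0.6 → 0.65 * η₁ + 4.2 * η₀ ≤ 0.4 * ε →
    ∃ v : ℝ → ℂ → ℝ,
      (∀ d ∈ Icc (-1 : ℝ) 1, Continuous (v d) ∧ (∀ w, |v d w| ≤ ε) ∧ (∀ w, v d (fold w) = v d w) ∧
        (∀ w, v d (swp w) = v d w) ∧ ∀ ψ, Test (box (-1) 2) ψ →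
          Integrable (fun w => g d (fold w) (v d w) * ψ w) ∧
          ∫ w, v d w * (lap ψ w + 9 / 5 * ψ w) = -∫ w, g d (fold w) (v d w) * ψ w) ∧
      ∀ e > 0, ∃ δ > 0, ∀ d ∈ Icc (-1 : ℝ) 1, ∀ d' ∈ Icc (-1 : ℝ) 1, |d - d'| < δ →
        ∀ w, |v d w - v d' w| ≤ e

/-- Green's identity for test functions. -/
def GreenStmt : Prop :=
  ∀ (O : Set ℂ) (u ψ : ℂ → ℝ), IsOpen O → ContDiffOn ℝ 2 u O → Test O ψ →
    ∫ z, u z * lap ψ z = ∫ z, lap u z * ψ z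

/-- Continuous weak solutions of semilinear equations are smooth; a point is removable. -/
def RegStmt : Prop :=
  ∀ (O : Set ℂ) (p : ℂ) (u : ℂ → ℝ) (F : ℂ × ℝ → ℝ), IsOpen O → ContinuousOn u O →
    ContDiffOn ℝ ∞ F (O ×ˢ univ) →
    (∀ ψ, Test (O \ {p}) ψ → ∫ z, u z * lap ψ z = ∫ z, F (z, u z) * ψ z) →
    ContDiffOn ℝ ∞ u O ∧ ∀ z ∈ O, lap u z = F (z, u z)

/-- Green's identity for a folded function with Neumann boundary values. -/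
def FoldStmt : Prop :=
  ∀ (h ψ : ℂ → ℝ), (∀ w ∈ Sq, w ≠ 0 → ContDiffAt ℝ 2 h w) →
    (∀ w ∈ Sq, w ≠ 0 → (w.re = 0 ∨ w.re = 1 → d1 h w = 0) ∧ (w.im = 0 ∨ w.im = 1 → d2 h w = 0)) →
    Test (box (-1) 2 \ {0}) ψ →
    Integrable (fun w => h (fold w) * lap ψ w) ∧ Integrable (fun w => lap h (fold w) * ψ w) ∧
      ∫ w, h (fold w) * lap ψ w = ∫ w, lap h (fold w) * ψ w

/-- Interior gradient estimate; only second derivatives along coordinate lines are required. -/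
def BrandtStmt : Prop :=
  ∀ (φ φ₁ φ₁₁ φ₂ φ₂₂ : ℝ → ℝ → ℝ) (x₀ y₀ r ε M : ℝ), 0 < r →
    ContinuousOn (fun p : ℝ × ℝ => φ p.1 p.2) (Icc (x₀ - r) (x₀ + r) ×ˢ Icc (y₀ - r) (y₀ + r)) →
    (∀ x ∈ Icc (x₀ - r) (x₀ + r), ∀ y ∈ Icc (y₀ - r) (y₀ + r), |φ x y| ≤ ε) →
    (∀ x ∈ Ioo (x₀ - r) (x₀ + r), ∀ y ∈ Ioo (y₀ - r) (y₀ + r),
      HasDerivAt (fun t => φ t y) (φ₁ x y) x ∧ HasDerivAt (fun t => φ₁ t y) (φ₁₁ x y) x ∧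
      HasDerivAt (fun t => φ x t) (φ₂ x y) y ∧ HasDerivAt (fun t => φ₂ x t) (φ₂₂ x y) y ∧
      |φ₁₁ x y + φ₂₂ x y| ≤ M) →
    |φ₁ x₀ y₀| ≤ 2 * ε / r + r * M / 2 ∧ |φ₂ x₀ y₀| ≤ 2 * ε / r + r * M / 2

/-- A flat connection on a star-shaped domain has a parallel frame. -/
def FlatStmt : Prop :=
  ∀ (D : Set ℂ) (α : ℂ → ℂ →L[ℝ] E4 →L[ℝ] E4), IsOpen D → 0 ∈ D → StarConvex ℝ 0 D →
    ContDiffOn ℝ ∞ α D →
    (∀ z ∈ D, fderiv ℝ α z 1 I - fderiv ℝ α z I 1 + α z 1 * α z I - α z I * α z 1 = 0) →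
    ∃ F : ℂ → E4 →L[ℝ] E4, ContDiffOn ℝ ∞ F D ∧ F 0 = 1 ∧
      ∀ z ∈ D, ∀ v, fderiv ℝ F z v = F z * α z v

/-- The fundamental theorem of surfaces for minimal surfaces of the sphere. -/
def BonnetStmt : Prop :=
  ∀ (D : Set ℂ) (u : ℂ → ℝ) (H : ℂ → ℂ), IsOpen D → 0 ∈ D → StarConvex ℝ 0 D →
    ContDiffOn ℝ ∞ u D → DifferentiableOn ℂ H D →
    (∀ z ∈ D, lap u z = ‖H z‖ ^ 2 * Real.exp (-2 * u z) - Real.exp (2 * u z)) →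
    ∃ f ν, Surf D u H f ν

/-- The derivative of the unit tangent frame and the second derivative of the immersion. -/
def FrameStmt : Prop :=
  ∀ (D : Set ℂ) (u : ℂ → ℝ) (H : ℂ → ℂ) (f ν : ℂ → E4), Surf D u H f ν → ∀ z ∈ D, ∀ v w : ℂ,
    fderiv ℝ (fun z => Real.exp (-u z) • fderiv ℝ f z v) z w =
      fderiv ℝ u z (-I * w) • Real.exp (-u z) • fderiv ℝ f z (I * v) +
        (Real.exp (-u z) * (H z * v * w).re) • ν z - (Real.exp (u z) * ⟪v, w⟫) • f z ∧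
    ⟪ν z, fderiv ℝ (fun z => fderiv ℝ f z v) z w⟫ = (H z * v * w).re

/-- Rigidity: two immersions with the same data that agree to first order at a point agree. -/
def RigidStmt : Prop :=
  ∀ (D : Set ℂ) (u : ℂ → ℝ) (H : ℂ → ℂ) (f ν f' ν' : ℂ → E4), Surf D u H f ν → Surf D u H f' ν' →
    IsPreconnected D → ∀ p ∈ D, f p = f' p → ν p = ν' p → fderiv ℝ f p = fderiv ℝ f' p →
    EqOn f f' D ∧ EqOn ν ν' D

/-- From the solution of the sinh-Gordon equation to the fundamental piece. -/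
def TurnStmt : Prop :=
  ∀ (κ : ℝ) (om u : ℂ → ℝ), Om κ om u → ∃ y n p : ℝ → ℝ,
    Clos (fun s => √κ * Real.exp (om ⟨s, 1⟩)) (fun s => Real.exp (-om ⟨s, 1⟩)) y n p ∧
    (∀ s ∈ Icc (0 : ℝ) 1, 0 ≤ y s ∧ y s ≤ 1) ∧
    (y 1 = 1 / 2 → ∃ P : Pc, ∀ w ∈ Sq, w ≠ 0 →
      P.V w = 2 * Real.exp (-2 * om w) + 2 * κ * Real.exp (2 * om w))

/-- The structure of the reflection group. -/
def GroupStmt : Prop :=
  (∃ e : Fin 16 × Fin 72 ≃ W, ∀ k i, e k * rW i = e (nbr k i)) ∧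
  (∀ k ∈ W, ∀ x : E4, (∀ i, 0 ≤ ⟪root i, x⟫) → (∀ i, 0 ≤ ⟪root i, k x⟫) →
    k ∈ Subgroup.closure (refl '' {i | ⟪root i, x⟫ = 0})) ∧
  (∀ i, Nat.card (Subgroup.closure {refl i}) = 2) ∧
  Nat.card (Subgroup.closure {refl 0, refl 1}) = 8 ∧ Nat.card (Subgroup.closure {refl 0, refl 2}) = 4 ∧
  Nat.card (Subgroup.closure {refl 1, refl 3}) = 4 ∧ Nat.card (Subgroup.closure {refl 2, refl 3}) = 4

/-- The area formula for injective conformal immersions. -/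
def AreaStmt : Prop :=
  ∀ (O : Set ℂ) (g : ℂ → E4) (lam : ℂ → ℝ) (h : E4 → ℝ), IsOpen O → ContDiffOn ℝ 1 g O → InjOn g O →
    (∀ w ∈ O, 0 < lam w ∧ ∀ v, ‖fderiv ℝ g w v‖ = lam w * ‖v‖) →
    (IntegrableOn h (g '' O) μHE[2] ↔ IntegrableOn (fun w => lam w ^ 2 * h (g w)) O) ∧
      ∫ x in g '' O, h x ∂μHE[2] = ∫ w in O, lam w ^ 2 * h (g w)

/-- The union of the images of the piece. -/
def Pc.M (P : Pc) : Set E4 := ⋃ k ∈ W, k '' (P.g '' Sq)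

/-- The cell structure. -/
def CellStmt : Prop :=
  ∀ P : Pc, ∃ C : Topology.CWComplex P.M, (∀ k, Finite (C.cell k)) ∧
    (∀ k, 3 ≤ k → IsEmpty (C.cell k)) ∧
    (Nat.card (C.cell 0) : ℤ) - Nat.card (C.cell 1) + Nat.card (C.cell 2) = 2 - 2 * (73 : ℕ)

/-- The local index form. -/
def form (V f : ℂ → ℝ) : ℝ := ∫ w in Sq, (d1 f w ^ 2 + d2 f w ^ 2 - V w * f w ^ 2)

/-- The closed surface and its index form. -/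
def GlobalStmt : Prop :=
  ∀ P : Pc, ∃ S : MinSurf, S.M = P.M ∧ ∀ F : E4 → ℝ, ContDiff ℝ ∞ F →
    IntegrableOn (S.q F) S.M μHE[2] ∧
      ∫ x in S.M, S.q F x ∂μHE[2] = ∑ᶠ k : W, form P.V fun w => F (k.1 (P.g w))

/-- The local lower bound for the index form. -/
def LocalStmt : Prop :=
  ∀ (V Vp f φ σ₁ σ₂ : ℂ → ℝ) (C : ℝ), ContinuousOn V (Sq \ {0}) → ContinuousOn Vp (Sq \ {0}) →
    (∀ w ∈ Sq, w ≠ 0 → |V w| ≤ C / ‖w‖ ∧ V w ≤ Vp w ∧ |Vp w| ≤ 2.5 + 0.06 / mx w) →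
    ContinuousOn f Sq → (∀ w ∈ Sq, w ≠ 0 → ContDiffAt ℝ 1 f w ∧ ‖fderiv ℝ f w‖ ^ 2 ≤ C / ‖w‖) →
    ContDiff ℝ 1 φ → ContDiff ℝ 1 σ₁ → ContDiff ℝ 1 σ₂ →
    (∀ i, ∫ t in (0 : ℝ)..1, (f (sp i t) - φ (sp i t)) = 0) →
    (∀ i, ∫ t in (0 : ℝ)..1, (f (sp i t) - φ (sp i t)) * ![σ₂, σ₁, σ₁, σ₂] i (sp i t) = 0) →
    ∫ w in Sq, (d1 φ w ^ 2 + d2 φ w ^ 2 - Vp w * φ w ^ 2 -
      ((d1 φ w - σ₁ w) ^ 2 + (d2 φ w - σ₂ w) ^ 2) / 0.35 -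
      (d1 σ₁ w + d2 σ₂ w + Vp w * φ w) ^ 2 * mx w / 0.12) ≤ form V f

/-- The assembled matrix has at most 138 negative directions. -/
def AlgStmt : Prop :=
  ∀ y : (Fin 139 → ℝ) →ₗ[ℝ] (Fin 16 × Fin 72 → Fin 4 × Fin 3 → ℝ),
    (∀ c k i m, y c (nbr k i) (i, m) = y c k (i, m)) →
    ∃ c ≠ 0, 0 ≤ ∑ k, ∑ a, ∑ b, (lamM a b : ℝ) * y c k a * y c k b

end Pool.Agent.MP_6b3e96_gt.H77
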