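import Pool.Agent.MP_6b3e96_gt.H77.Defs

/-!
Shared definitions: the unit square, the reflection group, conformal minimal immersions.
-/

open scoped ContDiff Topology RealInnerProductSpace MeasureTheory Real
open Set Filter Metric MeasureTheory Complex

noncomputable section

namespace Pool.Agent.MP_6b3e96_gt.H77

/-- The closed unit square. -/
def Sq : Set ℂ := Icc 0 1 ×ℂ Icc 0 1
/-- An open square. -/
def box (a b : ℝ) : Set ℂ := Ioo a b ×ℂ Ioo a b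
/-- The larger coordinate. -/
def mx (w : ℂ) : ℝ := max w.re w.im
/-- The distance to the nearest even integer. -/
def fold1 (x : ℝ) : ℝ := Real.arccos (Real.cos (π * x)) / π
/-- Folding of the plane onto the unit square. -/
def fold (w : ℂ) : ℂ := ⟨fold1 w.re, fold1 w.im⟩
/-- Exchange of the coordinates. -/
def swp (w : ℂ) : ℂ := ⟨w.im, w.re⟩
/-- First directional derivative. -/
def d1 {E : Type} [NormedAddCommGroup E] [NormedSpace ℝ E] (f : ℂ → E) (z : ℂ) : E :=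
  fderiv ℝ f z 1
/-- Second directional derivative. -/
def d2 {E : Type} [NormedAddCommGroup E] [NormedSpace ℝ E] (f : ℂ → E) (z : ℂ) : E :=
  fderiv ℝ f z I
/-- The Laplacian. -/
def lap (f : ℂ → ℝ) (z : ℂ) : ℝ := d1 (d1 f) z + d2 (d2 f) z
/-- Test functions supported in `O`. -/
def Test (O : Set ℂ) (ψ : ℂ → ℝ) : Prop :=
  ContDiff ℝ ∞ ψ ∧ HasCompactSupport ψ ∧ tsupport ψ ⊆ O
/-- Signed distance to the four sides. -/
def sd (i : Fin 4) (w : ℂ) : ℝ := ![w.im, w.re, 1 - w.re, 1 - w.im] i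
/-- Parametrization of the four sides. -/
def sp (i : Fin 4) (t : ℝ) : ℂ := ![⟨t, 0⟩, ⟨0, t⟩, ⟨1, t⟩, ⟨t, 1⟩] i
/-- Reflections of the plane in the four sides. -/
def sr (i : Fin 4) (w : ℂ) : ℂ :=
  ![⟨w.re, -w.im⟩, ⟨-w.re, w.im⟩, ⟨2 - w.re, w.im⟩, ⟨w.re, 2 - w.im⟩] i

/-- Simple roots of the reflection group of the 24-cell, one for each side. -/
def root (i : Fin 4) : E4 := ![!₂[0, 0, 0, 1], !₂[0, 0, 1, -1], !₂[0, 1, -1, 0], !₂[1, -1, -1, -1]] i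
/-- The simple reflections. -/
def refl (i : Fin 4) : E4 ≃ₗᵢ[ℝ] E4 := (ℝ ∙ root i)ᗮ.reflection
/-- The reflection group. -/
def W : Subgroup (E4 ≃ₗᵢ[ℝ] E4) := Subgroup.closure (range refl)
/-- The simple reflections as elements of the group. -/
def rW (i : Fin 4) : W := ⟨refl i, Subgroup.subset_closure ⟨i, rfl⟩⟩

/-- The fundamental piece of the surface. -/
structure Pc where
  g : ℂ → E4
  lam : ℂ → ℝ
  V : ℂ → ℝ
  cont : ContinuousOn g Sq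
  inj : InjOn g Sq
  sph : ∀ w ∈ Sq, ‖g w‖ = 1
  cham : ∀ w ∈ Sq, ∀ i, 0 ≤ ⟪root i, g w⟫ ∧ (⟪root i, g w⟫ = 0 ↔ sd i w = 0)
  sm : ∀ w ∈ Sq, w ≠ 0 → ContDiffAt ℝ 1 g w
  conf : ∀ w ∈ Sq, w ≠ 0 → 0 < lam w ∧ ∀ v, ‖fderiv ℝ g w v‖ = lam w * ‖v‖
  Vc : ContinuousOn V (Sq \ {0})
  bd : ∃ C, ∀ w ∈ Sq, w ≠ 0 → lam w ^ 2 ≤ C / ‖w‖ ∧ |V w| ≤ C / ‖w‖
  chart : ∀ w ∈ Sq, ∃ ψ N, IsChart ψ (g w) N ∧
    (∀ U ∈ 𝓝 (0 : ℂ), ∀ᶠ w' in 𝓝[Sq] w, g w' ∈ ψ '' U) ∧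
    (∀ i, sd i w = 0 → ∃ σ : ℂ → ℂ, Tendsto σ (𝓝 0) (𝓝 0) ∧ ∀ᶠ z in 𝓝 0, ψ (σ z) = refl i (ψ z)) ∧
    (∀ᶠ z in 𝓝 0, ∃ k ∈ W, ∃ w' ∈ Sq, ψ z = k (g w')) ∧
    (w ≠ 0 → (ψ =ᶠ[𝓝 0] fun z => g (w + (lam w)⁻¹ • z)) ∧ (normA2 ψ N + 2) * lam w ^ 2 = V w)

/-- A conformal minimal immersion `f` of `D` into the sphere with unit normal `ν`, conformal factor
`exp u` and Hopf differential `H`. -/
structure Surf (D : Set ℂ) (u : ℂ → ℝ) (H : ℂ → ℂ) (f ν : ℂ → E4) : Prop where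
  opn : IsOpen D
  sf : ContDiffOn ℝ ∞ f D
  sn : ContDiffOn ℝ ∞ ν D
  su : ContDiffOn ℝ ∞ u D
  nf : ∀ z ∈ D, ‖f z‖ = 1
  nn : ∀ z ∈ D, ‖ν z‖ = 1
  fn : ∀ z ∈ D, ⟪ν z, f z⟫ = 0
  nor : ∀ z ∈ D, ∀ v, ⟪ν z, fderiv ℝ f z v⟫ = 0
  conf : ∀ z ∈ D, ∀ v w, ⟪fderiv ℝ f z v, fderiv ℝ f z w⟫ = Real.exp (2 * u z) * ⟪v, w⟫
  wei : ∀ z ∈ D, ∀ v,
    fderiv ℝ ν z v = -Real.exp (-2 * u z) • fderiv ℝ f z ((starRingEnd ℂ) (H z * v))

/-- The domain in the plane of the square root. -/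
def Dz : Set ℂ := {z | z ^ 2 ∈ box (-2) 2}

/-- The solution of the sinh-Gordon equation with one logarithmic singularity. -/
structure Om (κ : ℝ) (om u : ℂ → ℝ) : Prop where
  pos : 0 < κ
  sm : ContDiffOn ℝ ∞ om (box (-2) 2 \ {0})
  sy : ∀ i w, om (sr i w) = om w
  sw : ∀ w, om (swp w) = om w
  su : ContDiffOn ℝ ∞ u Dz
  rel : ∀ z ∈ Dz, z ≠ 0 → u z = om (z ^ 2) + Real.log (2 * √κ * ‖z‖)
  gauss : ∀ z ∈ Dz, lap u z = 16 * κ * ‖z‖ ^ 4 * Real.exp (-2 * u z) - Real.exp (2 * u z)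
  b1 : ∀ w ∈ Sq, w ≠ 0 → Real.exp (-2 * om w) ≤ 1.285 * ‖w‖
  b2 : ∀ w ∈ Sq, w ≠ 0 → Real.exp (-2 * om w) ≤ 1.235
  b3 : ∀ w ∈ Sq, w ≠ 0 → κ * Real.exp (2 * om w) ≤ 0.04 / ‖w‖
  b4 : ∀ w ∈ Sq, w ≠ 0 → |d2 om w| ≤ w.im / (2 * ‖w‖ ^ 2) + 0.05 + 0.01 / √‖w‖

/-- The frame equations along a curvature line, paired with the initial tangent vector. -/
structure Clos (α β y n p : ℝ → ℝ) : Prop where
  y0 : y 0 = 1
  n0 : n 0 = 0
  p0 : p 0 = 0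
  dy : ∀ s ∈ Icc (0 : ℝ) 1, HasDerivAt y (β s * n s - α s * p s) s
  dn : ∀ s ∈ Icc (0 : ℝ) 1, HasDerivAt n (-(β s * y s)) s
  dp : ∀ s ∈ Icc (0 : ℝ) 1, HasDerivAt p (α s * y s) s

/-- Table of neighbours. -/
def nbT : List (List ℕ) :=
  [[0, 1, 2, 3], [1, 0, 4, 5], [2, 6, 0, 7], [8, 5, 7, 0], [4, 9, 1, 10], [11, 3, 10, 1], [6, 2,
  9, 12], [13, 12, 3, 2], [3, 14, 13, 8], [9, 4, 6, 15], [16, 15, 5, 4], [5, 17, 16, 11], [18, 7,
  15, 6], [7, 19, 8, 13], [20, 8, 21, 14], [22, 10, 12, 9], [10, 23, 11, 16], [24, 11, 25, 17],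
  [12, 26, 22, 18], [27, 13, 28, 19], [14, 24, 29, 30], [29, 28, 14, 21], [15, 31, 18, 22], [32,
  16, 33, 23], [17, 20, 34, 35], [34, 33, 17, 25], [36, 18, 37, 26], [19, 36, 38, 39], [38, 21,
  19, 28], [21, 40, 20, 41], [30, 35, 41, 20], [42, 22, 43, 31], [23, 42, 44, 45], [44, 25, 23,
  33], [25, 46, 24, 47], [35, 30, 47, 24], [26, 27, 48, 49], [48, 43, 26, 37], [28, 50, 27, 51],
  [39, 49, 51, 27], [52, 29, 46, 53], [41, 53, 30, 29], [31, 32, 54, 55], [54, 37, 31, 43], [33,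
  56, 32, 57], [45, 55, 57, 32], [58, 34, 40, 59], [47, 59, 35, 34], [37, 60, 36, 61], [49, 39,
  61, 36], [62, 38, 60, 63], [51, 63, 39, 38], [40, 62, 58, 52], [53, 41, 59, 40], [43, 64, 42,
  65], [55, 45, 65, 42], [66, 44, 64, 67], [57, 67, 45, 44], [46, 66, 52, 58], [59, 47, 53, 46],
  [68, 48, 50, 69], [61, 69, 49, 48], [50, 52, 68, 62], [63, 51, 69, 50], [70, 54, 56, 71], [65,
  71, 55, 54], [56, 58, 70, 66], [67, 57, 71, 56], [60, 70, 62, 68], [69, 61, 63, 60], [64, 68,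
  66, 70], [71, 65, 67, 64]]

/-- Table of signs. -/
def sgT : List (List ℕ) :=
  [[8, 0, 0, 0], [4, 0, 0, 0], [8, 0, 0, 0], [0, 0, 0, 0], [4, 0, 0, 0], [0, 0, 0, 0], [2, 0, 0,
  0], [0, 0, 0, 0], [0, 0, 0, 8], [2, 0, 0, 0], [0, 0, 0, 0], [0, 0, 0, 4], [0, 0, 0, 0], [0, 0,
  0, 8], [0, 0, 0, 8], [0, 0, 0, 0], [0, 0, 0, 4], [0, 0, 0, 4], [0, 0, 0, 2], [0, 0, 0, 8], [0,
  0, 0, 0], [0, 0, 0, 8], [0, 0, 0, 2], [0, 0, 0, 4], [0, 0, 0, 0], [0, 0, 0, 4], [0, 0, 0, 2],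
  [0, 0, 0, 0], [0, 0, 0, 8], [0, 0, 0, 0], [8, 0, 0, 0], [0, 0, 0, 2], [0, 0, 0, 0], [0, 0, 0,
  4], [0, 0, 0, 0], [4, 0, 0, 0], [0, 0, 0, 0], [0, 0, 0, 2], [0, 0, 0, 0], [8, 0, 0, 0], [0, 0,
  0, 0], [8, 0, 0, 0], [0, 0, 0, 0], [0, 0, 0, 2], [0, 0, 0, 0], [4, 0, 0, 0], [0, 0, 0, 0], [4,
  0, 0, 0], [0, 0, 0, 0], [2, 0, 0, 0], [0, 0, 0, 0], [8, 0, 0, 0], [0, 0, 0, 1], [1, 0, 0, 0],
  [0, 0, 0, 0], [2, 0, 0, 0], [0, 0, 0, 0], [4, 0, 0, 0], [0, 0, 0, 1], [1, 0, 0, 0], [0, 0, 0,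
  0], [2, 0, 0, 0], [0, 0, 0, 1], [1, 0, 0, 0], [0, 0, 0, 0], [2, 0, 0, 0], [0, 0, 0, 1], [1, 0,
  0, 0], [0, 0, 0, 1], [1, 0, 0, 0], [0, 0, 0, 1], [1, 0, 0, 0]]

/-- Table of the local matrix. -/
def lamT : List (List ℤ) :=
  [[290083, -2023, 231531, -156018, 129783, -130963, -157294, 130256, -130091, -3506, -192,
  40244], [-2023, 367594, -22, 129783, -130428, 140519, -130871, 130965, -140349, -193, 13545,
  29], [231531, -22, 782791, -130963, 140519, -236854, -130679, 140357, -237226, 40120, 39,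
  62127], [-156018, 129783, -130963, 290083, -2023, 231531, -3506, -192, 40244, -157294, 130256,
  -130091], [129783, -130428, 140519, -2023, 367594, -22, -193, 13545, 29, -130871, 130965,
  -140349], [-130963, 140519, -236854, 231531, -22, 782791, 40120, 39, 62127, -130679, 140357,
  -237226], [-157294, -130871, -130679, -3506, -193, 40120, 283667, -972, 234318, -158336,
  -131028, -130093], [130256, 130965, 140357, -192, 13545, 39, -972, 364601, -101, -131028,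
  -131140, -140227], [-130091, -140349, -237226, 40244, 29, 62127, 234318, -101, 779336, -130093,
  -140227, -237651], [-3506, -193, 40120, -157294, -130871, -130679, -158336, -131028, -130093,
  283667, -972, 234318], [-192, 13545, 39, 130256, 130965, 140357, -131028, -131140, -140227,
  -972, 364601, -101], [40244, 29, 62127, -130091, -140349, -237226, -130093, -140227, -237651,
  234318, -101, 779336]]

/-- The neighbour of a coset representative. -/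
def nb (j : Fin 72) (i : Fin 4) : Fin 72 := Fin.ofNat 72 ((nbT.getD j []).getD i 0)
/-- The sign change attached to a neighbour. -/
def sg (j : Fin 72) (i : Fin 4) : Fin 16 := Fin.ofNat 16 ((sgT.getD j []).getD i 0)
/-- The neighbour of a piece across the side `i`. -/
def nbr (k : Fin 16 × Fin 72) (i : Fin 4) : Fin 16 × Fin 72 := (k.1 ^^^ sg k.2 i, nb k.2 i)
/-- The local matrix, scaled by `2 ^ 16`. -/
def lamM (a b : Fin 4 × Fin 3) : ℤ := (lamT.getD (3 * a.1 + a.2) []).getD (3 * b.1 + b.2) 0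

end Pool.Agent.MP_6b3e96_gt.H77
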