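import Pool.Agent.MP_6b3e96_gt.H77.Expr

/-!
Kernel checks.
-/

namespace Pool.Agent.MP_6b3e96_gt.H77

variable {d s q : ℝ}

theorem p1 (h : Tri d s q) : |P1 d s q| ≤ (6 : ℕ) / (100000 : ℕ) :=
  h.bound hom.1 ⟨880, 174, 130⟩ 6 100000 (by decide) (by decide +kernel)

theorem p0 (h : Tri d s q) : |P0 d s q| ≤ (2 : ℕ) / (10000000 : ℕ) :=
  h.bound hom.2.1 ⟨130, 1, 1⟩ 2 10000000 (by decide) (by decide +kernel)

theorem h5 (h : Tri d s q) : 0 ≤ H5 d s q :=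
  h.grid hom'.2.2.2.2.1 ⟨660, 118, 86⟩ 1 0 (by decide +kernel)

end Pool.Agent.MP_6b3e96_gt.H77
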