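import Pool.Agent.MP_6b3e96_gt.H77.Expr

/-!
Kernel checks.
-/

namespace Pool.Agent.MP_6b3e96_gt.H77

variable {d s q : ℝ}

theorem g0 (h : Tri d s q) : |G0 d s q| ≤ (3 : ℕ) / (1024 : ℕ) :=
  h.bound hom.2.2.1 ⟨290, 60, 44⟩ 3 1024 (by decide) (by decide +kernel)

theorem g1 (h : Tri d s q) : 0 ≤ G1 d s q :=
  h.grid hom.2.2.2.1 ⟨80, 12, 6⟩ 3 1 (by decide +kernel)

theorem g2 (h : Tri d s q) : 0 ≤ G2 d s q :=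
  h.grid hom.2.2.2.2.1 ⟨80, 12, 6⟩ 1 1 (by decide +kernel)

theorem g3 (h : Tri d s q) : 0 ≤ G3 d s q :=
  h.grid hom.2.2.2.2.2.1 ⟨80, 12, 6⟩ 3 2 (by decide +kernel)

theorem g4 (h : Tri d s q) : 0 ≤ G4 d s q :=
  h.rows hom.2.2.2.2.2.2.1 ⟨230, 26, 20⟩ 6 3 fun i hi => by interval_cases i <;> decide +kernel

theorem g5 (h : Tri d s q) : 0 ≤ G5 d s q :=
  h.grid hom.2.2.2.2.2.2.2.1 ⟨190, 26, 20⟩ 3 2 (by decide +kernel)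

theorem g6 (h : Tri d s q) : 0 ≤ G6 d s q :=
  h.grid hom.2.2.2.2.2.2.2.2.1 ⟨100, 14, 14⟩ 2 2 (by decide +kernel)

theorem g7 (h : Tri d s q) : 0 ≤ G7 d s q :=
  h.grid hom.2.2.2.2.2.2.2.2.2.1 ⟨100, 14, 14⟩ 0 0 (by decide +kernel)

theorem g8 (h : Tri d s q) : 0 ≤ G8 d s q :=
  h.grid hom.2.2.2.2.2.2.2.2.2.2.1 ⟨60, 10, 6⟩ 1 0 (by decide +kernel)

theorem g9 : ∫ s in (0 : ℝ)..1, ∫ q in (0 : ℝ)..1, G9 1 s q ≤ 0.55 ^ 2 := by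
  have h : (Ex.mono (fun _ => G9) ⟨90, 14, 14⟩).v.int ⟨90, 14, 14⟩ 360360 ≤ 360360 ^ 2 * 1200 ∧
    (Ex.mono (fun _ => G9) ⟨90, 14, 14⟩).v.e = 12 := by decide +kernel
  rw [Ex.integral hom.2.2.2.2.2.2.2.2.2.2.2 ⟨90, 14, 14⟩ 360360 (by decide +kernel) (by decide)
    (by decide), h.2, div_le_iff₀ (by positivity)]
  exact (Int.cast_le.2 h.1).trans (by norm_num)

theorem z1 (d x y : ℝ) : Z1 d x y = 0 := Ex.zero hom'.2.2.2.2.2.1 ⟨70, 12, 12⟩ (by decide +kernel) d x y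
theorem z2 (d x y : ℝ) : Z2 d x y = 0 := Ex.zero hom'.2.2.2.2.2.2.1 ⟨70, 12, 12⟩ (by decide +kernel) d x y
theorem z3 (d x y : ℝ) : Z3 d x y = 0 :=
  Ex.zero hom'.2.2.2.2.2.2.2.1 ⟨70, 12, 12⟩ (by decide +kernel) d x y
theorem z4 (d x y : ℝ) : Z4 d x y = 0 :=
  Ex.zero hom'.2.2.2.2.2.2.2.2.1 ⟨70, 12, 12⟩ (by decide +kernel) d x y
theorem z5 (d x y : ℝ) : Z5 d x y = 0 :=
  Ex.zero hom'.2.2.2.2.2.2.2.2.2 ⟨70, 12, 12⟩ (by decide +kernel) d x y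

end Pool.Agent.MP_6b3e96_gt.H77
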