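import Pool.Agent.MP_6b3e96_gt.H77.Expr

/-!
Kernel checks.
-/

namespace Pool.Agent.MP_6b3e96_gt.H77

variable {d s q : ℝ}

theorem h1 (h : Tri d s q) : 0 ≤ H1 d s q := h.grid hom'.1 ⟨310, 60, 48⟩ 0 0 (by decide +kernel)

theorem h2 (h : Tri d s q) : 0 ≤ H2 d s q := h.grid hom'.2.1 ⟨310, 60, 48⟩ 0 0 (by decide +kernel)

theorem h3 (h : Tri d s q) : 0 ≤ H3 d s q := h.grid hom'.2.2.1 ⟨390, 60, 46⟩ 2 1 (by decide +kernel)

theorem h4 (h : Tri d s q) : 0 ≤ H4 d s q :=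
  h.rows hom'.2.2.2.1 ⟨465, 60, 46⟩ 3 3 fun i hi => by interval_cases i <;> decide +kernel

end Pool.Agent.MP_6b3e96_gt.H77
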