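import Pool.Agent.MP_6b3e96_gt.H77.Calc
import Pool.Agent.MP_6b3e96_gt.H77.Run1
import Pool.Agent.MP_6b3e96_gt.H77.Run2
import Pool.Agent.MP_6b3e96_gt.H77.Run3
import Pool.Agent.MP_6b3e96_gt.H20.Kit

/-!
The approximate solution satisfies all required bounds.
-/

open scoped ContDiff Topology
open Set Filter Complex MeasureTheory

noncomputable section

namespace Pool.Agent.MP_6b3e96_gt.H77

variable {d : ℝ} {w : ℂ}

lemma c_one : (Cst.c 1 0 : ℝ) = 1 := by simp [c_real]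

lemma d_swp (f : ℂ → ℝ) : (d1 (fun w => f (swp w)) = fun w => d2 f (swp w)) ∧
    d2 (fun w => f (swp w)) = fun w => d1 f (swp w) := by
  have h := fun w => (equivRealProdCLM.trans ((ContinuousLinearEquiv.prodComm ℝ ℝ ℝ).trans
    equivRealProdCLM.symm)).comp_right_fderiv (f := f) (x := w)
  exact ⟨funext fun w => congrArg (fun L : ℂ →L[ℝ] ℝ => L 1) (h w),
    funext fun w => congrArg (fun L : ℂ →L[ℝ] ℝ => L I) (h w)⟩

lemma norm_swp (w : ℂ) : ‖swp w‖ = ‖w‖ := by simp [norm_def, normSq_apply, swp, add_comm]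

lemma mx_swp (w : ℂ) : mx (swp w) = mx w := max_comm _ _

lemma swp_ne (h : w ≠ 0) : swp w ≠ 0 := by rwa [← norm_ne_zero_iff, norm_swp, norm_ne_zero_iff]

lemma UU_swp (d : ℝ) (w : ℂ) : UU d (swp w) = UU d w := by
  rw [UU, UU, norm_swp, Uf, Uf, sub_eq_zero.1 (z1 d (w.re * w.re) _), sub_eq_zero.1 (z2 d (w.re * w.re) _)]
  rfl

lemma om0_swp (d : ℝ) : (fun w => om0 (UU d) (swp w)) = om0 (UU d) :=
  funext fun w => by rw [om0, om0, UU_swp, norm_swp]

lemma res_swp (d : ℝ) (w : ℂ) : res (kap d) (UU d) (swp w) = res (kap d) (UU d) w := by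
  have h := d_swp (om0 (UU d))
  rw [om0_swp] at h
  have h1 := (d_swp (d2 (om0 (UU d)))).1
  have h2 := (d_swp (d1 (om0 (UU d)))).2
  rw [← h.1] at h1
  rw [← h.2] at h2
  rw [res, res, UU_swp, norm_swp, lap, lap, congrFun h1 w, congrFun h2 w, add_comm (d1 _ _)]

lemma tri (hd : d ∈ Icc (-1 : ℝ) 1) {P : ℂ → Prop} (hs : ∀ w, P (swp w) → P w)
    (h : ∀ (w : ℂ) (q : ℝ), Tri d w.re q → 0 ≤ w.im → w.im ≤ w.re →
      w.im * w.im = w.re * w.re * (q * q - 1) → ‖w‖ = w.re * q → UU d w = Uq d w.re q → mx w = w.re →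
      P w) : ∀ w ∈ Sq, P w := by
  have key : ∀ w ∈ Sq, w.im ≤ w.re → P w := fun w hw h1 => by
    obtain ⟨⟨a0, a1⟩, b0, b1⟩ := hw
    have h2 : ‖w‖ * ‖w‖ = w.re * w.re + w.im * w.im := by rw [← normSq_apply, normSq_eq_norm_sq, sq]
    obtain ⟨q, q0, q1, h3, h4⟩ : ∃ q : ℝ, 1 ≤ q ∧ 2 ^ 8 * q ≤ 363 ∧
        w.im * w.im = w.re * w.re * (q * q - 1) ∧ ‖w‖ = w.re * q := by
      rcases a0.eq_or_lt with h0 | h0
      · have h5 : w.im = 0 := by linarith
        exact ⟨1, le_rfl, by norm_num, by simp [h5], by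
          rw [← h0, h5] at h2; simpa [← h0] using h2⟩
      · refine ⟨‖w‖ / w.re, (one_le_div h0).2 (re_le_norm w), ?_, by field_simp; linarith, by field_simp⟩
        rw [← mul_div_assoc, div_le_iff₀ h0]
        exact abs_le_of_sq_le_sq' (by nlinarith) (by positivity) |>.2
    exact h w q ⟨abs_le.2 hd, a0, a1, q0, q1⟩ b0 h1 h3 h4 (by rw [UU, Uq, c_one, h3, h4]) (max_eq_left h1)
  intro w hw
  rcases le_total w.im w.re with h1 | h1
  · exact key w hw h1
  · exact hs w (key _ ⟨hw.2, hw.1⟩ h1)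

lemma Tri.z {s q : ℝ} (h : Tri d s q) : ∃ z, Tri z s q ∧ Uz z s q = Uq d s q := by
  have h1 := g0 h
  refine ⟨G0 d s q * (1024 / 3), ⟨?_, h.s0, h.s1, h.q0, h.q1⟩, ?_⟩
  · rw [abs_mul, abs_of_pos (show (0 : ℝ) < 1024 / 3 by norm_num)]
    push_cast at h1
    linarith
  · simp only [Uz, G0, c_real]
    ring

lemma Tri.bd {s q : ℝ} (h : Tri d s q) :
    0.78 ≤ Uq d s q ∧ Uq d s q ≤ 1.217 ∧ s * q ≤ 1.23 * Uq d s q := by
  obtain ⟨z, hz, e⟩ := h.z
  have h1 := g1 hz
  have h2 := g2 hz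
  have h3 := g3 hz
  simp only [G1, G2, G3, e, c_real] at h1 h2 h3
  refine ⟨by linarith, by linarith, by linarith⟩

lemma kap_bd (hd : d ∈ Icc (-1 : ℝ) 1) : 0.0318 ≤ kap d ∧ kap d ≤ 0.03281 := by
  simp only [kap, c_real]
  constructor <;> linarith [hd.1, hd.2]

lemma UU_bd (hd : d ∈ Icc (-1 : ℝ) 1) :
    ∀ w ∈ Sq, 0.78 ≤ UU d w ∧ UU d w ≤ 1.217 ∧ ‖w‖ ≤ 1.23 * UU d w :=
  tri hd (fun w h => by rwa [UU_swp, norm_swp] at h) fun w q h _ _ _ h1 h2 _ => h1 ▸ h2 ▸ h.bd

/-- The bound for the potential in the fixed point argument. -/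
def bb (w : ℂ) : ℝ := ev2 6 bT (w.re * w.re) (w.im * w.im)

lemma bb_swp (w : ℂ) : bb (swp w) = bb w := by simp [bb, swp, ev2, ev1, bT, c_real]; ring

lemma re_pos {q : ℝ} (h : Tri d w.re q) (h1 : ‖w‖ = w.re * q) (hw : w ≠ 0) : 0 < w.re :=
  h.s0.lt_of_ne' (left_ne_zero_of_mul (h1 ▸ norm_ne_zero_iff.2 hw))

lemma grad_bd (hd : d ∈ Icc (-1 : ℝ) 1) : ∀ w ∈ Sq, w ≠ 0 →
    |d1 (om0 (UU d)) w| ≤ w.re / (2 * ‖w‖ ^ 2) + 0.05 ∧
      |d2 (om0 (UU d)) w| ≤ w.im / (2 * ‖w‖ ^ 2) + 0.05 := by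
  refine tri hd (fun w h hw => ?_) fun w q h t0 _ e1 e2 e3 _ hw => ?_
  · have h1 := d_swp (om0 (UU d))
    rw [om0_swp] at h1
    rw [congrFun h1.1 w, congrFun h1.2 w, ← norm_swp w]
    exact (h (swp_ne hw)).symm
  · have hs := re_pos h e2 hw
    have hU : 0 < UU d w := by linarith [h.bd.1]
    have hq : 0 < q := by linarith [h.q0]
    have k1 := h1 h
    have k2 := h2 h
    have k3 := h3 h
    have k4 := h4 h
    simp only [H1, H2, H3, H4, aq, c_one, ← e1, ← e2, ← e3] at k1 k2 k3 k4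
    simp only [c_real] at k1 k2 k3 k4
    rw [(J_om0 hw hU.ne').d1, (J_om0 hw hU.ne').d2, aa, aa]
    generalize af dx d _ _ _ = a at *
    generalize af dy d _ _ _ = b at *
    generalize UU d w = U at *
    have e4 : ∀ t c : ℝ, 0 ≤ t → ‖w‖ * c ≤ 2 * U → -(0.1 * (‖w‖ * U)) ≤ t * c →
        |t * (c * (‖w‖ * U)⁻¹ + -1 * (‖w‖ * ‖w‖)⁻¹) * 2⁻¹| ≤ t / (2 * ‖w‖ ^ 2) + 0.05 :=
      fun t c t0 c1 c2 => by
        have hr := norm_pos_iff.2 hw
        have a1 : t * (c * (‖w‖ * U)⁻¹ + -1 * (‖w‖ * ‖w‖)⁻¹) * 2⁻¹ =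
            t * c / (2 * (‖w‖ * U)) - t / (2 * ‖w‖ ^ 2) := by field_simp; ring
        have a2 : t * c / (2 * (‖w‖ * U)) ≤ 2 * (t / (2 * ‖w‖ ^ 2)) := by
          rw [← mul_div_assoc, div_le_div_iff₀ (by positivity) (by positivity)]
          nlinarith [mul_le_mul_of_nonneg_left c1 (mul_nonneg t0 hr.le)]
        have a3 : -0.05 ≤ t * c / (2 * (‖w‖ * U)) := by
          rw [le_div_iff₀ (by positivity)]; linarith
        rw [a1, abs_le]
        constructor <;> linarith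
    have hqU := mul_pos hq hU
    refine ⟨e4 _ _ hs.le (by linarith) (by rw [e2]; nlinarith), e4 _ _ t0 (by linarith) ?_⟩
    rw [e2]
    rcases le_total 0 b with hb | hb
    · nlinarith [mul_nonneg t0 hb, mul_pos hs hqU]
    · have a4 : 0.612 * (w.im * w.re) ≤ w.re * w.re * (q * q - 29 / 32) := by
        nlinarith [sq_nonneg (w.im - 0.306 * w.re)]
      have a5 := mul_le_mul_of_nonpos_right a4 hb
      have a6 := mul_nonneg (mul_pos hs hs).le k4
      refine le_of_mul_le_mul_left ?_ hs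
      push_cast at a6
      nlinarith [mul_pos (mul_pos hs hs) hqU]

lemma res_tri {q : ℝ} (h : Tri d w.re q) (e1 : w.im * w.im = w.re * w.re * (q * q - 1))
    (e2 : ‖w‖ = w.re * q) (e3 : UU d w = Uq d w.re q) (hw : w ≠ 0) : res (kap d) (UU d) w =
      (P0 d w.re q / q + w.re * P1 d w.re q / q ^ 2) / Uq d w.re q ^ 2 / w.re := by
  have hs := re_pos h e2 hw
  rw [res_eq hw (by linarith [h.bd.1]) e1 e2, e3]
  field_simp

theorem appr : Appr kap UU bb where
  sm d := fun w hw => by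
    have h1 : ContDiffAt ℝ ∞ (fun w : ℂ => ‖w‖) w := contDiffAt_norm ℝ hw
    have h2 : ∀ M, ContDiffAt ℝ ∞ (fun w : ℂ => ev2 36 M (w.re * w.re) (w.im * w.im)) w := fun M =>
      (contDiff_ev2 36 M (reCLM.contDiff.mul reCLM.contDiff)
        (imCLM.contDiff.mul imCLM.contDiff)).contDiffAt
    exact (((h2 _).add (contDiffAt_const.mul (h2 _))).add
      (h1.mul ((h2 _).add (contDiffAt_const.mul (h2 _))))).contDiffWithinAt
  smz d := by
    have h0 : ContDiff ℝ ∞ fun z : ℂ => z ^ 2 := contDiff_id.pow 2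
    have h1 : ContDiff ℝ ∞ fun z : ℂ => ‖z ^ 2‖ := by
      simp only [norm_pow]; exact contDiff_norm_sq ℝ
    have h2 : ∀ M, ContDiff ℝ ∞ fun z : ℂ =>
        ev2 36 M ((z ^ 2).re * (z ^ 2).re) ((z ^ 2).im * (z ^ 2).im) := fun M =>
      (contDiff_ev2 36 M (reCLM.contDiff.mul reCLM.contDiff) (imCLM.contDiff.mul imCLM.contDiff)).comp h0
    exact ((h2 _).add (contDiff_const.mul (h2 _))).add (h1.mul ((h2 _).add (contDiff_const.mul (h2 _))))
  ev d w := by simp [UU, sr, norm_def, normSq_apply]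
  sw := UU_swp
  kb d := kap_bd
  bd d := UU_bd
  neu d hd w hw h := by
    have hU : UU d w ≠ 0 := by linarith [(UU_bd hd w hw).1]
    have h0 : w ≠ 0 := by rintro rfl; simp at h
    have k3 := z3 d 0 (w.im * w.im)
    have k4 := z4 d 0 (w.im * w.im)
    have k5 := z5 d 0 (w.im * w.im)
    rw [(J_om0 h0 hU).d1]
    simp only [Z3, Z4, Z5, c_one] at k3 k4 k5
    simp only [aa, af, UU, Uf, h, mul_one, k3, k4, k5, zero_add, mul_zero] at hU ⊢
    generalize N2 id d 1 _ = n at *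
    have := right_ne_zero_of_mul hU
    have := left_ne_zero_of_mul hU
    field_simp
    ring
  rs d hd := tri hd (fun w h hw => by simpa only [res_swp, mx_swp] using h (swp_ne hw))
    fun w q h _ _ e1 e2 e3 e4 hw => by
      have hs := re_pos h e2 hw
      have k0 := p0 h
      have k1 := p1 h
      have hq := h.q0
      have hU := h.bd.1
      rw [res_tri h e1 e2 e3 hw, e4, abs_div, abs_of_pos hs, div_le_iff₀ hs, abs_div, abs_sq,
        div_le_iff₀ (by positivity), add_mul, div_mul_cancel₀ _ hs.ne']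
      refine (abs_add_le _ _).trans ?_
      rw [abs_div, abs_div, abs_mul, abs_of_pos hs, abs_sq, abs_of_pos (show 0 < q by linarith)]
      have a1 := div_le_self (abs_nonneg (P0 d w.re q)) hq
      have a2 := div_le_self (mul_nonneg hs.le (abs_nonneg (P1 d w.re q))) (one_le_pow₀ hq (n := 2))
      have a3 := mul_le_mul_of_nonneg_left k1 hs.le
      have a4 : 0.6 ≤ Uq d w.re q ^ 2 := by nlinarith
      push_cast at k0 a3
      nlinarith
  βc := by unfold bb; fun_prop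
  βb := tri (d := 0) (by simp) (fun w h => by rwa [bb_swp] at h) fun w q h _ _ e1 _ _ _ => by
    have k6 := g6 h
    have k7 := g7 h
    simp only [G6, G7, Bq, c_one, ← e1] at k6 k7
    exact ⟨k6, by rw [c_real] at k7; unfold bb; linarith⟩
  βi := by
    have hc : Continuous fun w => bb w ^ 2 := by unfold bb; fun_prop
    rw [(H20.fub (hc.continuousOn.integrableOn_compact (isCompact_Icc.reProdIm isCompact_Icc))).1,
      ← intervalIntegral.integral_of_le zero_le_one]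
    simpa only [bb, sq, G9] using g9
  lip d hd := tri hd (fun w h hw => by
      simpa only [UU_swp, norm_swp, bb_swp, mx_swp] using h (swp_ne hw))
    fun w q h _ _ e1 e2 e3 e4 hw => by
      have hs := re_pos h e2 hw
      obtain ⟨z, hz, e⟩ := h.z
      have k4 := g4 hz
      have k5 := g5 hz
      have hq : 0 < q := by linarith [h.q0]
      have hU : 0 < Uq d w.re q := by linarith [h.bd.1]
      obtain ⟨a1, a2⟩ := kap_bd hd
      simp only [G4, G5, Bq, c_one, ← e1, e] at k4 k5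
      simp only [c_real] at k4 k5
      rw [e2, e3, e4, bb]
      generalize ev2 6 bT (w.re * w.re) _ = B at *
      generalize Uq d w.re q = U at *
      generalize w.re = s at *
      have a3 := mul_pos hq hU
      have a4 := mul_pos hs a3
      have a5 : 2 * kap d * (U / (s * q)) + 2 * (s * q / U) - 9 / 5 =
          (2 * kap d * U ^ 2 + 2 * (s * q) ^ 2 - 9 / 5 * (s * (q * U))) / (s * (q * U)) := by field_simp
      have a6 : B + 0.055 / s - 0.002 = (s * (B - 0.002) + 0.055) * (q * U) / (s * (q * U)) := by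
        field_simp; ring
      rw [← le_sub_iff_add_le, a5, a6, abs_div, abs_of_pos a4, div_le_div_iff_of_pos_right a4, abs_le]
      push_cast at k4 k5
      constructor <;> nlinarith [mul_pos hU hU]
  grad d hd w hw h := (grad_bd hd w hw h).2
  cont e he := by
    have hK : IsCompact (Icc (-1 : ℝ) 1 ×ˢ Icc (0 : ℝ) 1 ×ˢ Icc (1 : ℝ) (363 / 256)) :=
      isCompact_Icc.prod (isCompact_Icc.prod isCompact_Icc)
    have c0 : Continuous fun p : ℝ × ℝ × ℝ => Uq p.1 p.2.1 p.2.2 := by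
      unfold Uq Uf N1 N2; fun_prop
    have c1 : Continuous fun p : ℝ × ℝ × ℝ => P0 p.1 p.2.1 p.2.2 := by
      unfold P0 kap N1 N2; fun_prop
    have c2 : Continuous fun p : ℝ × ℝ × ℝ => P1 p.1 p.2.1 p.2.2 := by
      simp only [P1, P1h, P1g, lapf, af, Uf, kap, N1, N2]; fun_prop
    have c3 : ContinuousOn (fun p : ℝ × ℝ × ℝ => (kap p.1, Uq p.1 p.2.1 p.2.2,
        (P0 p.1 p.2.1 p.2.2 / p.2.2 + p.2.1 * P1 p.1 p.2.1 p.2.2 / p.2.2 ^ 2) / Uq p.1 p.2.1 p.2.2 ^ 2))
        (Icc (-1 : ℝ) 1 ×ˢ Icc (0 : ℝ) 1 ×ˢ Icc (1 : ℝ) (363 / 256)) := by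
      refine ContinuousOn.prodMk (by unfold kap; fun_prop) (c0.continuousOn.prodMk (ContinuousOn.div
        ((c1.continuousOn.div (by fun_prop) fun p hp => by linarith [hp.2.2.1]).add
          (ContinuousOn.div (by fun_prop) (by fun_prop) fun p hp => by have := hp.2.2.1; positivity))
        (by fun_prop) fun p hp => ?_))
      have := (Tri.bd ⟨abs_le.2 hp.1, hp.2.1.1, hp.2.1.2, hp.2.2.1, by linarith [hp.2.2.2]⟩).1
      positivity
    obtain ⟨δ, δ0, hδ⟩ := Metric.uniformContinuousOn_iff_le.1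
      (hK.uniformContinuousOn_of_continuous c3) e he
    refine ⟨δ, δ0, fun d hd d' hd' h => ?_⟩
    have key := fun s q hs hq => hδ (d, s, q) ⟨hd, hs, hq⟩ (d', s, q) ⟨hd', hs, hq⟩
      (by simpa [Prod.dist_eq, Real.dist_eq] using h.le)
    simp only [Prod.dist_eq, Real.dist_eq, max_le_iff] at key
    refine ⟨(key 0 1 (by simp) (by norm_num)).1, tri hd (fun w h hw => by
      simpa only [UU_swp, res_swp, mx_swp] using h (swp_ne hw)) fun w q h _ _ e1 e2 e3 e4 hw => ?_⟩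
    have e5 : UU d' w = Uq d' w.re q := by rw [UU, Uq, c_one, e1, e2]
    have hs := re_pos h e2 hw
    have k := (key w.re q ⟨h.s0, h.s1⟩ ⟨h.q0, by linarith [h.q1]⟩).2
    rw [res_tri h e1 e2 e3 hw, res_tri ⟨abs_le.2 hd', h.s0, h.s1, h.q0, h.q1⟩ e1 e2 e5 hw, e3, e4, e5,
      ← sub_div, abs_div, abs_of_pos hs]
    exact ⟨k.1, div_le_div_of_nonneg_right k.2 hs.le⟩

theorem le_Vp (hd : d ∈ Icc (-1 : ℝ) 1) : ∀ w ∈ Sq, w ≠ 0 →
    1.0009 * (2 * (‖w‖ / UU d w) + 2 * kap d * (UU d w / ‖w‖)) ≤ Vp w := by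
  refine tri hd (fun w h hw => ?_) fun w q h _ t1 e1 e2 e3 e4 hw => ?_
  · have h1 := h (swp_ne hw)
    rwa [UU_swp, norm_swp, Vp, mx_swp, show min (swp w).re (swp w).im = min w.re w.im from min_comm _ _]
      at h1
  · have hs := re_pos h e2 hw
    have k5 := h5 h
    have k8 := g8 h
    have hq : 0 < q := by linarith [h.q0]
    have hU : 0 < Uq d w.re q := by linarith [h.bd.1]
    have hk := (kap_bd hd).1
    simp only [H5, G8, c_one] at k5 k8
    rw [Vp, e4, min_eq_right t1, show (w.im / w.re) ^ 2 = q * q - 1 by field_simp; linarith, e2, e3]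
    generalize ev2 26 pvT w.re _ = P at *
    generalize Uq d w.re q = U at *
    generalize w.re = s at *
    have a3 := mul_pos hq hU
    have a5 : 2 * (s * q / U) + 2 * kap d * (U / (s * q)) =
        2 * (kap d * (U * U) + s * q * (s * q)) / (q * U) / s := by field_simp; ring
    rw [a5, ← mul_div_assoc, div_le_div_iff_of_pos_right hs, ← mul_div_assoc, div_le_iff₀ a3]
    have a6 := mul_nonneg (mul_nonneg (sub_nonneg.2 hd.2) k8) a3.le
    have a7 : 0 ≤ kap d * (U * U) + s * q * (s * q) := by positivity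
    simp only [c_real] at k5
    push_cast at k5
    nlinarith

end Pool.Agent.MP_6b3e96_gt.H77
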