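import Pool.Agent.MP_6b3e96_gt.H77.Data
import Pool.Agent.MP_6b3e96_gt.H77.Chk

/-!
The polynomial expressions that are checked.
-/

namespace Pool.Agent.MP_6b3e96_gt.H77

/-- The constant coefficient. -/
def hd (M : List (List ℤ)) : List (List ℤ) := [[(M.headD []).headD 0]]
/-- The rest of the first row. -/
def tx (M : List (List ℤ)) : List (List ℤ) := [(M.headD []).tail]
/-- A low degree approximation of the solution. -/
def utT : List (List ℤ) := [[52358, -2802, 272, 16695, -3603, 7062],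
  [-170, 5035, -53454, 160465, -132978], [467, -21247, 148290, -279620, 243302]]
/-- The bound for the potential in the fixed point argument. -/
def bT : List (List ℤ) := [[65, -167, 166, -50], [-167, 408, -163], [166, -163], [-50]]

section
variable {α : Type} [Add α] [Mul α] [Sub α] [Cst α]

/-- The Laplacian of a polynomial in the squares of the coordinates. -/
def lapf (N : (List (List ℤ) → List (List ℤ)) → α) (x y : α) : α :=
  Cst.c 2 0 * (N dx + N dy) + Cst.c 4 0 * (x * N (dx ∘ dx) + y * N (dy ∘ dy))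
/-- The scaled first derivatives. -/
def af (f : List (List ℤ) → List (List ℤ)) (d x y r : α) : α :=
  Cst.c 2 0 * r * (N1 f d x y + r * N2 f d x y) + N2 id d x y
/-- The scaled first derivatives in triangular coordinates. -/
def aq (f : List (List ℤ) → List (List ℤ)) (d s q : α) : α :=
  af f d (s * s) (s * s * (q * q - Cst.c 1 0)) (s * q)
/-- The regular part of the residual. -/
def P1g (d s q u a b rl1 u0 m0 u1 : α) : α :=
  Cst.c 1 1 * (q * (u0 * rl1 + u1 * (m0 + s * rl1)) - (a * a + (q * q - Cst.c 1 0) * (b * b))) +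
    q * (kap d * (u1 * (u * (u + u0) + u0 * u0)) - s * q * q * u)
/-- The regular part of the residual. -/
def P1h (d s q p x y r : α) : α :=
  P1g d s q (Uf d x y r) (af dx d x y r) (af dy d x y r)
    (q * (lapf (N1 · d x y) x y + r * lapf (N2 · d x y) x y) +
      s * (Cst.c 4 0 * (N2 dx d x y + p * N2 dy d x y) + (N2 tx d x y + p * N2 List.tail d x y)))
    (N1 hd d x y) (N2 hd d x y) (s * (N1 tx d x y + p * N1 List.tail d x y) + q * N2 id d x y)
/-- The regular part of the residual. -/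
def P1 (d s q : α) : α :=
  P1h d s q (q * q - Cst.c 1 0) (s * s) (s * s * (q * q - Cst.c 1 0)) (s * q)
/-- The singular part of the residual. -/
def P0 (d s q : α) : α :=
  Cst.c 1 1 * (N1 hd d s q * N2 hd d s q) + kap d * (N1 hd d s q * N1 hd d s q * N1 hd d s q)
/-- The low degree approximation. -/
def Ut (s q : α) : α := ev2 16 utT s (q - Cst.c 1 0)
/-- The low degree approximation with its error. -/
def Uz (z s q : α) : α := Ut s q + Cst.c 3 10 * z
/-- The bound for the potential in triangular coordinates. -/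
def Bq (s q : α) : α := ev2 6 bT (s * s) (s * s * (q * q - Cst.c 1 0))
/-- The dependence of the potential on the parameter. -/
def pv1 (s q : α) : α := ev2 26 [[44614, -48700, 237742, 0, -55991], [0, 0, 43902]] s (q * q - Cst.c 1 0)
/-- A checked expression. -/
def G0 (d s q : α) : α := Uq d s q - Ut s q
/-- A checked expression. -/
def G1 (z s q : α) : α := Uz z s q - Cst.c 799 10
/-- A checked expression. -/
def G2 (z s q : α) : α := Cst.c 1246 10 - Uz z s q
/-- A checked expression. -/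
def G3 (z s q : α) : α := Cst.c 1259 10 * Uz z s q - s * q
/-- A checked expression. -/
def G4 (z s q : α) : α := (s * (Bq s q + Cst.c 1841 10) + Cst.c 225 12) * q * Uz z s q -
  Cst.c 1076 14 * (Uz z s q * Uz z s q) - Cst.c 2 0 * (s * q * (s * q))
/-- A checked expression. -/
def G5 (z s q : α) : α := (s * (Bq s q - Cst.c 1846 10) + Cst.c 225 12) * q * Uz z s q +
  Cst.c 1042 14 * (Uz z s q * Uz z s q) + Cst.c 2 0 * (s * q * (s * q))
/-- A checked expression. -/
def G6 (_z s q : α) : α := Bq s q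
/-- A checked expression. -/
def G7 (_z s q : α) : α := Cst.c 10 0 - Bq s q
/-- A checked expression. -/
def G8 (_z s q : α) : α := pv1 s q
/-- A checked expression. -/
def G9 (_z s q : α) : α := ev2 6 bT (s * s) (q * q) * ev2 6 bT (s * s) (q * q)
/-- A checked expression. -/
def H1 (d s q : α) : α := Cst.c 2 0 * Uq d s q - s * q * aq dx d s q
/-- A checked expression. -/
def H2 (d s q : α) : α := Cst.c 2 0 * Uq d s q - s * q * aq dy d s q
/-- A checked expression. -/
def H3 (d s q : α) : α := aq dx d s q + Cst.c 51 9 * (q * Uq d s q)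
/-- A checked expression. -/
def H4 (d s q : α) : α := aq dy d s q * (q * q - Cst.c 29 5) + Cst.c 31 9 * (q * Uq d s q)
/-- A checked expression. -/
def H5 (d s q : α) : α :=
  (ev2 26 pvT s (q * q - Cst.c 1 0) - (Cst.c 1 0 - d) * pv1 s q) * (q * Uq d s q) -
    Cst.c 1025 9 * (kap d * (Uq d s q * Uq d s q) + s * q * (s * q))
/-- A checked identity. -/
def Z1 (d x y : α) : α := N1 id d x y - N1 id d y x
/-- A checked identity. -/
def Z2 (d x y : α) : α := N2 id d x y - N2 id d y x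
/-- A checked identity. -/
def Z3 (d _x y : α) : α := N1 id d (Cst.c 1 0) y
/-- A checked identity. -/
def Z4 (d _x y : α) : α := N1 dx d (Cst.c 1 0) y
/-- A checked identity. -/
def Z5 (d _x y : α) : α := N2 dx d (Cst.c 1 0) y

end

lemma hom : (Ex.Hom fun _ => P1) ∧ (Ex.Hom fun _ => P0) ∧ (Ex.Hom fun _ => G0) ∧ (Ex.Hom fun _ => G1) ∧
    (Ex.Hom fun _ => G2) ∧ (Ex.Hom fun _ => G3) ∧ (Ex.Hom fun _ => G4) ∧ (Ex.Hom fun _ => G5) ∧
    (Ex.Hom fun _ => G6) ∧ (Ex.Hom fun _ => G7) ∧ (Ex.Hom fun _ => G8) ∧ (Ex.Hom fun _ => G9) := by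
  refine ⟨?_, ?_, ?_, ?_, ?_, ?_, ?_, ?_, ?_, ?_, ?_, ?_⟩ <;> intro p X Y Z D a b c x <;>
  simp only [P1, P1h, P1g, P0, G0, G1, G2, G3, G4, G5, G6, G7, G8, G9, Uz, Ut, Bq, pv1, lapf, af, Uq, Uf,
    N1, N2, kap, RV.add_f, RV.mul_f, RV.sub_f, RV.c_f, RV.ev2_f]

lemma hom' : (Ex.Hom fun _ => H1) ∧ (Ex.Hom fun _ => H2) ∧ (Ex.Hom fun _ => H3) ∧ (Ex.Hom fun _ => H4) ∧
    (Ex.Hom fun _ => H5) ∧ (Ex.Hom fun _ => Z1) ∧ (Ex.Hom fun _ => Z2) ∧ (Ex.Hom fun _ => Z3) ∧
    (Ex.Hom fun _ => Z4) ∧ (Ex.Hom fun _ => Z5) := by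
  refine ⟨?_, ?_, ?_, ?_, ?_, ?_, ?_, ?_, ?_, ?_⟩ <;> intro p X Y Z D a b c x <;>
  simp only [H1, H2, H3, H4, H5, Z1, Z2, Z3, Z4, Z5, pv1, aq, af, Uq, Uf,
    N1, N2, kap, RV.add_f, RV.mul_f, RV.sub_f, RV.c_f, RV.ev2_f]

/-- The range of the triangular coordinates. -/
structure Tri (d s q : ℝ) : Prop where
  hd : |d| ≤ 1
  s0 : 0 ≤ s
  s1 : s ≤ 1
  q0 : 1 ≤ q
  q1 : 2 ^ 8 * q ≤ 363

lemma Tri.grid {G : Ex} (hG : G.Hom) (p : KP) (k l : ℕ)
    (chk : ((List.range (2 ^ k)).all fun i => (List.range (2 ^ l)).all fun j =>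
      (G.box p (4 * i + 2) 1 (k + 2) (2 ^ l * 255 + 27 * (4 * j + 2)) 27 (8 + l)).v.pos p) = true)
    {d s q : ℝ} (h : Tri d s q) : 0 ≤ G ℝ d s q :=
  Ex.grid hG p k l 255 27 8 (by decide) chk h.hd h.s0 h.s1 (by push_cast; linarith [h.q0])
    (by push_cast; linarith [h.q1])

lemma Tri.rows {G : Ex} (hG : G.Hom) (p : KP) (k l : ℕ)
    (chk : ∀ i : ℕ, i < 2 ^ k → ((List.range (2 ^ l)).all fun j =>
      (G.box p (4 * i + 2) 1 (k + 2) (2 ^ l * 255 + 27 * (4 * j + 2)) 27 (8 + l)).v.pos p) = true)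
    {d s q : ℝ} (h : Tri d s q) : 0 ≤ G ℝ d s q :=
  h.grid hG p k l (List.all_eq_true.2 fun i hi => chk i (List.mem_range.1 hi))

lemma Tri.bound {G : Ex} (hG : G.Hom) (p : KP) (B N : ℕ) (hN : 0 < N)
    (chk : ((G.box p 2 1 2 309 27 8).v.ok p &&
      Nat.ble ((G.box p 2 1 2 309 27 8).v.l1 p * N) (B <<< (G.box p 2 1 2 309 27 8).v.e)) = true)
    {d s q : ℝ} (h : Tri d s q) : |G ℝ d s q| ≤ B / N :=
  Ex.bound hG p 309 27 8 N (by decide) hN B chk h.hd h.s0 h.s1
    (by rw [abs_le]; push_cast; constructor <;> linarith [h.q0, h.q1])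

end Pool.Agent.MP_6b3e96_gt.H77
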