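import Pool.Agent.MP_6b3e96_gt.H77.Spec2
import Pool.Agent.MP_6b3e96_gt.H77.Expr

/-!
Derivatives of the approximate solution.
-/

open scoped ContDiff Topology
open Set Filter Complex

noncomputable section

namespace Pool.Agent.MP_6b3e96_gt.H77

/-- The function `f` has the derivatives `a`, `b` at `w`. -/
def J (f : ℂ → ℝ) (w : ℂ) (a b : ℝ) : Prop := HasFDerivAt f (a • reCLM + b • imCLM) w

namespace J
variable {f g : ℂ → ℝ} {w : ℂ} {a b a' b' : ℝ}

lemma d1 (h : J f w a b) : d1 f w = a := by rw [H77.d1, HasFDerivAt.fderiv h]; simp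
lemma d2 (h : J f w a b) : d2 f w = b := by rw [H77.d2, HasFDerivAt.fderiv h]; simp
lemma congr (h : J f w a b) (ha : a = a') (hb : b = b') : J f w a' b' := ha ▸ hb ▸ h
lemma const (c : ℝ) : J (fun _ => c) w 0 0 := by simpa [J] using hasFDerivAt_const c w
lemma re : J (fun w => w.re) w 1 0 := reCLM.hasFDerivAt.congr_fderiv (by simp)
lemma im : J (fun w => w.im) w 0 1 := imCLM.hasFDerivAt.congr_fderiv (by simp)

lemma add (h : J f w a b) (h' : J g w a' b') : J (fun w => f w + g w) w (a + a') (b + b') :=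
  (HasFDerivAt.fun_add h h').congr_fderiv (by module)

lemma mul (h : J f w a b) (h' : J g w a' b') :
    J (fun w => f w * g w) w (a * g w + f w * a') (b * g w + f w * b') :=
  (HasFDerivAt.fun_mul h h').congr_fderiv (by module)

lemma comp {φ : ℝ → ℝ} {c : ℝ} (h : J f w a b) (hφ : HasDerivAt φ c (f w)) :
    J (fun w => φ (f w)) w (c * a) (c * b) :=
  (hφ.comp_hasFDerivAt w h).congr_fderiv (by module)

lemma norm (hw : w ≠ 0) : J (fun w => ‖w‖) w (w.re / ‖w‖) (w.im / ‖w‖) := by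
  have h := ((re.mul re).add (im.mul im)).comp (w := w)
    (Real.hasDerivAt_sqrt (by simpa [← normSq_apply] using hw))
  simp only [← normSq_apply, ← norm_def] at h
  exact h.congr (by field_simp; ring) (by field_simp; ring)

lemma ev (e : ℕ) (M : List (List ℤ)) : J (fun w => ev2 e M (w.re * w.re) (w.im * w.im)) w
    (2 * w.re * ev2 e (dx M) (w.re * w.re) (w.im * w.im))
    (2 * w.im * ev2 e (dy M) (w.re * w.re) (w.im * w.im)) := by
  have h := ((contDiff_ev2 (n := 1) e M (reCLM.contDiff.mul reCLM.contDiff)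
    (imCLM.contDiff.mul imCLM.contDiff)).differentiable one_ne_zero w).hasFDerivAt
  have l : ∀ v : ℂ, HasDerivAt (fun t : ℝ => w + t • v) v 0 := fun v => by
    simpa using ((hasDerivAt_id (0 : ℝ)).smul_const v).const_add w
  have h1 := h.comp_hasDerivAt_of_eq 0 (l 1) (by simp)
  have h2 := h.comp_hasDerivAt_of_eq 0 (l I) (by simp)
  have k : ∀ x : ℝ, HasDerivAt (fun t : ℝ => (x + t) * (x + t)) (2 * x) 0 := fun x => by
    simpa [two_mul] using (((hasDerivAt_id (0 : ℝ)).const_add x).fun_mul ((hasDerivAt_id (0 : ℝ)).const_add x))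
  have h3 := h1.unique (by
    simpa [Function.comp_def] using (hasDerivAt_dx e M _ (w.im * w.im)).comp_of_eq 0 (k w.re) rfl)
  have h4 := h2.unique (by
    simpa [Function.comp_def] using (hasDerivAt_dy e M (w.re * w.re) _).comp_of_eq 0 (k w.im) rfl)
  refine h.congr_fderiv (ContinuousLinearMap.ext fun v => ?_)
  conv_lhs => rw [show v = v.re • (1 : ℂ) + v.im • I by simp, map_add, map_smul, map_smul, h3, h4]
  simp
  ring

lemma n1 (F : List (List ℤ) → List (List ℤ)) (d : ℝ) :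
    J (fun w => N1 F d (w.re * w.re) (w.im * w.im)) w
      (2 * w.re * N1 (dx ∘ F) d (w.re * w.re) (w.im * w.im))
      (2 * w.im * N1 (dy ∘ F) d (w.re * w.re) (w.im * w.im)) :=
  ((ev 36 _).add ((const d).mul (ev 36 _))).congr (by simp [N1]; ring) (by simp [N1]; ring)

lemma n2 (F : List (List ℤ) → List (List ℤ)) (d : ℝ) :
    J (fun w => N2 F d (w.re * w.re) (w.im * w.im)) w
      (2 * w.re * N2 (dx ∘ F) d (w.re * w.re) (w.im * w.im))
      (2 * w.im * N2 (dy ∘ F) d (w.re * w.re) (w.im * w.im)) :=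
  ((ev 36 _).add ((const d).mul (ev 36 _))).congr (by simp [N2]; ring) (by simp [N2]; ring)

end J

/-- The approximate solution. -/
def UU (d : ℝ) (w : ℂ) : ℝ := Uf d (w.re * w.re) (w.im * w.im) ‖w‖
/-- The scaled first derivatives. -/
def aa (F : List (List ℤ) → List (List ℤ)) (d : ℝ) (w : ℂ) : ℝ :=
  af F d (w.re * w.re) (w.im * w.im) ‖w‖

variable {d : ℝ} {w : ℂ}

lemma J_UU (hw : w ≠ 0) : J (UU d) w (w.re * aa dx d w / ‖w‖) (w.im * aa dy d w / ‖w‖) := by
  have := norm_ne_zero_iff.2 hw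
  exact ((J.n1 id d).add ((J.norm hw).mul (J.n2 id d))).congr
    (by simp only [aa, af, c_real, Function.comp_id]; field_simp; push_cast; ring)
    (by simp only [aa, af, c_real, Function.comp_id]; field_simp; push_cast; ring)

lemma J_om0 (hw : w ≠ 0) (hU : UU d w ≠ 0) : J (om0 (UU d)) w
    (w.re * (aa dx d w * (‖w‖ * UU d w)⁻¹ + -1 * (‖w‖ * ‖w‖)⁻¹) * 2⁻¹)
    (w.im * (aa dy d w * (‖w‖ * UU d w)⁻¹ + -1 * (‖w‖ * ‖w‖)⁻¹) * 2⁻¹) := by
  have := norm_ne_zero_iff.2 hw
  exact ((((J_UU hw).mul ((J.norm hw).comp (hasDerivAt_inv this))).comp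
    (Real.hasDerivAt_log (mul_ne_zero hU (inv_ne_zero this)))).mul (J.const 2⁻¹)).congr
    (by field_simp; ring) (by field_simp; ring)

lemma J_aa (F : List (List ℤ) → List (List ℤ)) (hw : w ≠ 0) : J (aa F d) w
    (2 * w.re * ((N1 F d (w.re * w.re) (w.im * w.im) / ‖w‖ + 2 * N2 F d (w.re * w.re) (w.im * w.im)) +
      2 * ‖w‖ * (N1 (dx ∘ F) d (w.re * w.re) (w.im * w.im) +
        ‖w‖ * N2 (dx ∘ F) d (w.re * w.re) (w.im * w.im)) + N2 dx d (w.re * w.re) (w.im * w.im)))
    (2 * w.im * ((N1 F d (w.re * w.re) (w.im * w.im) / ‖w‖ + 2 * N2 F d (w.re * w.re) (w.im * w.im)) +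
      2 * ‖w‖ * (N1 (dy ∘ F) d (w.re * w.re) (w.im * w.im) +
        ‖w‖ * N2 (dy ∘ F) d (w.re * w.re) (w.im * w.im)) + N2 dy d (w.re * w.re) (w.im * w.im))) := by
  have := norm_ne_zero_iff.2 hw
  exact ((((J.const _).mul (J.norm hw)).mul ((J.n1 F d).add ((J.norm hw).mul (J.n2 F d)))).add
    (J.n2 id d)).congr
    (by simp only [c_real, Function.comp_id]; field_simp; push_cast; ring)
    (by simp only [c_real, Function.comp_id]; field_simp; push_cast; ring)

lemma ev2_split (e : ℕ) (M : List (List ℤ)) (x y : ℝ) :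
    ev2 e M x y = ev2 e (hd M) x y + x * ev2 e (tx M) x y + y * ev2 e M.tail x y := by
  rcases M with _ | ⟨_ | ⟨a, L⟩, M⟩ <;> simp [ev2, ev1, hd, tx, c_real]

lemma res_eq {q : ℝ} (hw : w ≠ 0) (hU : UU d w ≠ 0) (h1 : w.im * w.im = w.re * w.re * (q * q - 1))
    (h2 : ‖w‖ = w.re * q) :
    res (kap d) (UU d) w = (P0 d w.re q / (w.re * q) + P1 d w.re q / q ^ 2) / UU d w ^ 2 := by
  have hr := norm_ne_zero_iff.2 hw
  have he : ∀ᶠ z in 𝓝 w, z ≠ 0 ∧ UU d z ≠ 0 :=
    (eventually_ne_nhds hw).and ((HasFDerivAt.continuousAt (J_UU hw)).eventually_ne hU)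
  have k1 := ((J.norm hw).mul (J_UU (d := d) hw)).comp (hasDerivAt_inv (mul_ne_zero hr hU))
  have k2 := (J.const (-1)).mul (((J.norm hw).mul (J.norm hw)).comp (hasDerivAt_inv (mul_ne_zero hr hr)))
  have e1 := ((J.re.mul (((J_aa (d := d) dx hw).mul k1).add k2)).mul (J.const 2⁻¹)).d1
  have e2 := ((J.im.mul (((J_aa (d := d) dy hw).mul k1).add k2)).mul (J.const 2⁻¹)).d2
  rw [d1, ← EventuallyEq.fderiv_eq (he.mono fun z hz => (J_om0 hz.1 hz.2).d1)] at e1
  rw [d2, ← EventuallyEq.fderiv_eq (he.mono fun z hz => (J_om0 hz.1 hz.2).d2)] at e2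
  have s1 : N1 id d (w.re * w.re) (w.im * w.im) = N1 hd d w.re q +
      w.re * w.re * N1 tx d (w.re * w.re) (w.im * w.im) +
      w.im * w.im * N1 List.tail d (w.re * w.re) (w.im * w.im) := by
    simp only [N1, id]
    rw [ev2_split 36 n1a, ev2_split 36 n1b]
    simp [hd, ev2, ev1]
    ring
  have s2 : N2 id d (w.re * w.re) (w.im * w.im) = N2 hd d w.re q +
      w.re * w.re * N2 tx d (w.re * w.re) (w.im * w.im) +
      w.im * w.im * N2 List.tail d (w.re * w.re) (w.im * w.im) := by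
    simp only [N2, id]
    rw [ev2_split 36 n2a, ev2_split 36 n2b]
    simp [hd, ev2, ev1]
    ring
  have s3 : ∀ x y, N1 hd d x y = N1 hd d w.re q := fun x y => rfl
  have s4 : ∀ x y, N2 hd d x y = N2 hd d w.re q := fun x y => rfl
  have c1 : (Cst.c 1 0 : ℝ) = 1 := by simp [c_real]
  have hs : w.re ≠ 0 := left_ne_zero_of_mul (h2 ▸ hr)
  have hq : q ≠ 0 := right_ne_zero_of_mul (h2 ▸ hr)
  have s5 : UU d w = N1 id d (w.re * w.re) (w.im * w.im) + w.re * q * N2 id d (w.re * w.re) (w.im * w.im) := by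
    rw [UU, Uf, h2]
  have s6 : ∀ F, aa F d w = 2 * (w.re * q) * (N1 F d (w.re * w.re) (w.im * w.im) +
      w.re * q * N2 F d (w.re * w.re) (w.im * w.im)) + N2 id d (w.re * w.re) (w.im * w.im) := fun F => by
    simp [aa, af, h2, c_real]
  have s7 : ∀ F, af F d (w.re * w.re) (w.im * w.im) (w.re * q) = aa F d w := fun F => by rw [aa, h2]
  have s8 : Uf d (w.re * w.re) (w.im * w.im) (w.re * q) = UU d w := by rw [UU, h2]
  rw [res, lap, d1, d2, e1, e2, P0, P1, c1, ← h1, P1h, P1g, s3 (w.re * w.re), s4 (w.re * w.re), s7, s7,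
    s8, ← sub_eq_zero]
  have s9 := s6 dx
  have s10 := s6 dy
  simp only [lapf, c_real, h2]
  generalize UU d w = U at *
  generalize aa dx d w = a at *
  generalize aa dy d w = b at *
  generalize N1 id d _ _ = n1 at *
  generalize N2 id d _ _ = n2 at *
  generalize N1 hd d _ _ = u0 at *
  generalize N2 hd d _ _ = m0 at *
  generalize N1 tx d _ _ = tx1 at *
  generalize N2 tx d _ _ = tx2 at *
  generalize N1 List.tail d _ _ = ty1 at *
  generalize N2 List.tail d _ _ = ty2 at *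
  generalize N1 dx d _ _ = n1x at *
  generalize N2 dx d _ _ = n2x at *
  generalize N1 dy d _ _ = n1y at *
  generalize N2 dy d _ _ = n2y at *
  generalize N1 (dx ∘ dx) d _ _ = n1xx at *
  generalize N2 (dx ∘ dx) d _ _ = n2xx at *
  generalize N1 (dy ∘ dy) d _ _ = n1yy at *
  generalize N2 (dy ∘ dy) d _ _ = n2yy at *
  generalize kap d = κ at *
  generalize w.re = s at *
  generalize w.im = t at *
  clear e1 e2 k1 k2 he s3 s4 s6 s7 s8 c1 h2 hr hw
  have key : ∀ A B C D E : ℝ, t * (2 * t * A * B + b * (C * (t / (s * q) * U + s * q * (t * b / (s * q)))) +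
      (0 * E + -1 * (D * (t / (s * q) * (s * q) + s * q * (t / (s * q)))))) =
      t * t * (2 * A * B + b * (C * (1 / (s * q) * U + s * q * (b / (s * q)))) +
      -1 * (D * (1 / (s * q) * (s * q) + s * q * (1 / (s * q))))) := fun A B C D E => by ring
  rw [key, h1]
  obtain rfl : u0 = U - s * (s * (tx1 + (q * q - 1) * ty1) + q * n2) := by rw [s5, s1, h1]; ring
  obtain rfl : m0 = n2 - s * s * (tx2 + (q * q - 1) * ty2) := by rw [s2, h1]; ring
  generalize s * (tx1 + (q * q - 1) * ty1) + q * n2 = u1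
  generalize tx2 + (q * q - 1) * ty2 = t2
  subst s9 s10
  push_cast
  field_simp
  ring

end Pool.Agent.MP_6b3e96_gt.H77
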