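import Mathlib

/-!
Closed embedded minimal surfaces of the round three-sphere, their genus and their Morse index.
-/

open scoped ContDiff Topology RealInnerProductSpace MeasureTheory
open Set Filter Metric MeasureTheory Complex

noncomputable section

namespace Pool.Agent.MP_6b3e96_gt.H77

/-- Euclidean four-space. -/
abbrev E4 := EuclideanSpace ℝ (Fin 4)

/-- The second fundamental form at `0` of a parametrization `ψ` of a surface by the plane, with
respect to the normal vector `N`. -/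
def sff (ψ : ℂ → E4) (N : E4) (v w : ℂ) : ℝ := ⟪N, fderiv ℝ (fun z => fderiv ℝ ψ z v) 0 w⟫

/-- The squared norm of the second fundamental form at `0`, for `ψ` with isometric differential
at `0`. -/
def normA2 (ψ : ℂ → E4) (N : E4) : ℝ :=
  sff ψ N 1 1 ^ 2 + sff ψ N 1 I ^ 2 + sff ψ N I 1 ^ 2 + sff ψ N I I ^ 2

/-- The map `ψ` is smooth near `0`, sends `0` to `x`, has an isometric differential at `0`, the
unit vector `N` is orthogonal to `x` and to the image of the differential, and the mean curvature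
at `0` vanishes. -/
structure IsChart (ψ : ℂ → E4) (x N : E4) : Prop where
  smooth : ∃ U ∈ 𝓝 (0 : ℂ), ContDiffOn ℝ ∞ ψ U
  center : ψ 0 = x
  iso : ∀ v, ‖fderiv ℝ ψ 0 v‖ = ‖v‖
  unit : ‖N‖ = 1
  tang : ⟪N, x⟫ = 0
  nor : ∀ v, ⟪N, fderiv ℝ ψ 0 v⟫ = 0
  minimal : sff ψ N 1 1 + sff ψ N I I = 0

/-- A closed connected embedded minimal surface of the unit sphere of `E4`: a compact connected
subset `M` with, at each point `x`, a smooth immersion `φ x` of a neighbourhood of `0` in the plane
that maps neighbourhoods of `0` onto neighbourhoods of `x` in `M`, and a unit normal `n x`. -/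
structure MinSurf where
  M : Set E4
  φ : E4 → ℂ → E4
  n : E4 → E4
  sub : M ⊆ sphere 0 1
  cpt : IsCompact M
  conn : IsConnected M
  chart : ∀ x ∈ M, IsChart (φ x) x (n x)
  onto : ∀ x ∈ M, map (φ x) (𝓝 0) = 𝓝[M] x

/-- The surface has genus `γ`: it has a finite CW structure of dimension at most two with Euler
characteristic `2 - 2 γ`. -/
def MinSurf.HasGenus (S : MinSurf) (γ : ℕ) : Prop :=
  ∃ C : Topology.CWComplex S.M, (∀ k, Finite (C.cell k)) ∧ (∀ k, 3 ≤ k → IsEmpty (C.cell k)) ∧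
    (Nat.card (C.cell 0) : ℤ) - Nat.card (C.cell 1) + Nat.card (C.cell 2) = 2 - 2 * γ

/-- The integrand `|∇ F|² - (|A|² + 2) F²` of the index form at the point `x`. -/
def MinSurf.q (S : MinSurf) (F : E4 → ℝ) (x : E4) : ℝ :=
  fderiv ℝ (F ∘ S.φ x) 0 1 ^ 2 + fderiv ℝ (F ∘ S.φ x) 0 I ^ 2 -
    (normA2 (S.φ x) (S.n x) + 2) * F x ^ 2

/-- The Morse index is at most `N`: the index form is defined on all smooth functions and is not
negative definite on any space of dimension `N + 1` of smooth functions. -/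
def MinSurf.IndexLE (S : MinSurf) (N : ℕ) : Prop :=
  (∀ F : E4 → ℝ, ContDiff ℝ ∞ F → IntegrableOn (S.q F) S.M μHE[2]) ∧
    ∀ F : Fin (N + 1) → E4 → ℝ, (∀ i, ContDiff ℝ ∞ (F i)) →
      ∃ c : Fin (N + 1) → ℝ, c ≠ 0 ∧ 0 ≤ ∫ x in S.M, S.q (fun y => ∑ i, c i * F i y) x ∂μHE[2]

end Pool.Agent.MP_6b3e96_gt.H77
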