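import Pool.Agent.MP_6b3e96_gt.H77.Kron

/-!
Generic polynomial expressions, evaluated on real numbers and on packed integers.
-/

open Finset

namespace Pool.Agent.MP_6b3e96_gt.H77

/-- Dyadic constants. -/
class Cst (α : Type) where
  c : ℤ → ℕ → α

noncomputable instance : Cst ℝ := ⟨fun n e => n / 2 ^ e⟩

lemma c_real (n : ℤ) (e : ℕ) : (Cst.c n e : ℝ) = n / 2 ^ e := rfl

section
variable {α : Type} [Add α] [Mul α] [Cst α]

/-- The Horner scheme. -/
def hor (x : α) (L : List α) : α :=
  List.rec (Cst.c 0 0) (fun a L ih => List.casesOn L a fun _ _ => a + x * ih) L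

/-- A polynomial in one variable with coefficients `L / 2 ^ e`. -/
def ev1 (e : ℕ) (L : List ℤ) (x : α) : α := hor x (L.map fun n => Cst.c n e)

/-- A polynomial in two variables; the rows are indexed by the exponent of `y`. -/
def ev2 (e : ℕ) (M : List (List ℤ)) (x y : α) : α := hor y (M.map fun L => ev1 e L x)

end

/-- Multiply the entries by `k, k + 1, ...`. -/
def dk {γ : Type} (sm : ℤ → γ → γ) (L : List γ) : ℤ → List γ :=
  List.rec (fun _ => []) (fun b _ ih k => sm k b :: ih (k + 1)) L
/-- Derivative in one variable. -/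
def der (L : List ℤ) : List ℤ := dk (fun k n => k * n) L.tail 1
/-- Derivative in the first variable. -/
def dx (M : List (List ℤ)) : List (List ℤ) := M.map der
/-- Derivative in the second variable. -/
def dy (M : List (List ℤ)) : List (List ℤ) := dk (fun k L => L.map fun n => k * n) M.tail 1

@[simp] lemma hor_nil (x : ℝ) : hor x [] = 0 := by simp [hor, c_real]

@[simp] lemma hor_cons (x a : ℝ) (L : List ℝ) : hor x (a :: L) = a + x * hor x L := by
  cases L with
  | nil => simp [hor, c_real]
  | cons b L => rfl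

lemma hasDerivAt_hor {γ : Type} (sm : ℤ → γ → γ) (val : γ → ℝ)
    (h : ∀ k b, val (sm k b) = k * val b) (x : ℝ) (L : List γ) :
    HasDerivAt (fun x => hor x (L.map val)) (hor x ((dk sm L.tail 1).map val)) x := by
  have key : ∀ L : List γ, ∃ D, HasDerivAt (fun x => hor x (L.map val)) D x ∧
      ∀ k : ℤ, hor x ((dk sm L k).map val) = k * hor x (L.map val) + x * D := fun L => by
    induction L with
    | nil => exact ⟨0, by simpa using hasDerivAt_const x (0 : ℝ), by simp [dk]⟩
    | cons b L ih =>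
      obtain ⟨D, h1, h2⟩ := ih
      refine ⟨_, by simpa using ((hasDerivAt_id x).mul h1).const_add (val b), fun k => ?_⟩
      change hor x (val (sm k b) :: (dk sm L (k + 1)).map val) = _
      simp only [hor_cons, h, h2, List.map_cons]
      push_cast
      ring
  cases L with
  | nil => simpa [dk] using hasDerivAt_const x (0 : ℝ)
  | cons b L =>
    obtain ⟨D, h1, h2⟩ := key L
    simpa [h2] using ((hasDerivAt_id x).mul h1).const_add (val b)

lemma hasDerivAt_ev1 (e : ℕ) (L : List ℤ) (x : ℝ) :
    HasDerivAt (ev1 e L) (ev1 e (der L) x) x :=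
  hasDerivAt_hor _ _ (fun k b => by simp only [c_real]; push_cast; ring) x L

lemma hasDerivAt_dx (e : ℕ) (M : List (List ℤ)) (x y : ℝ) :
    HasDerivAt (fun x => ev2 e M x y) (ev2 e (dx M) x y) x := by
  induction M with
  | nil => simpa [ev2, dx] using hasDerivAt_const x (0 : ℝ)
  | cons L M ih =>
    simpa [ev2, dx] using (hasDerivAt_ev1 e L x).fun_add (ih.const_mul y)

lemma hasDerivAt_dy (e : ℕ) (M : List (List ℤ)) (x y : ℝ) :
    HasDerivAt (fun y => ev2 e M x y) (ev2 e (dy M) x y) y := by
  refine hasDerivAt_hor _ _ (fun k L => ?_) y M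
  induction L with
  | nil => simp [ev1]
  | cons a L ih =>
    simp only [ev1, List.map_cons, hor_cons] at *
    rw [ih]
    simp only [c_real]
    push_cast
    ring

@[fun_prop] lemma contDiff_ev1 {E : Type} [NormedAddCommGroup E] [NormedSpace ℝ E] {n : WithTop ℕ∞}
    (e : ℕ) (L : List ℤ) {x : E → ℝ} (hx : ContDiff ℝ n x) : ContDiff ℝ n fun z => ev1 e L (x z) := by
  induction L with
  | nil => simpa [ev1] using contDiff_const
  | cons a L ih => simpa [ev1] using contDiff_const.add (hx.mul ih)

@[fun_prop] lemma contDiff_ev2 {E : Type} [NormedAddCommGroup E] [NormedSpace ℝ E] {n : WithTop ℕ∞}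
    (e : ℕ) (M : List (List ℤ)) {x y : E → ℝ} (hx : ContDiff ℝ n x) (hy : ContDiff ℝ n y) :
    ContDiff ℝ n fun z => ev2 e M (x z) (y z) := by
  induction M with
  | nil => simpa [ev2] using contDiff_const
  | cons L M ih => simpa [ev2] using (contDiff_ev1 e L hx).add (hy.mul ih)

@[fun_prop] lemma continuous_ev1 {E : Type} [TopologicalSpace E]
    (e : ℕ) (L : List ℤ) {x : E → ℝ} (hx : Continuous x) : Continuous fun z => ev1 e L (x z) :=
  (contDiff_ev1 (n := 0) e L contDiff_id).continuous.comp hx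

@[fun_prop] lemma continuous_ev2 {E : Type} [TopologicalSpace E]
    (e : ℕ) (M : List (List ℤ)) {x y : E → ℝ} (hx : Continuous x) (hy : Continuous y) :
    Continuous fun z => ev2 e M (x z) (y z) :=
  (contDiff_ev2 (n := 0) e M contDiff_fst contDiff_snd).continuous.comp (hx.prodMk hy)

variable {P : Type} (p : KP) (X Y Z : P → ℂ) (D : Set P)

/-- A function together with a packed representation. -/
structure RV where
  v : KV
  f : P → ℝ
  r : Rel p X Y Z D v f

variable {p X Y Z D}

lemma Rel.congr {v : KV} {f g : P → ℝ} (h : Rel p X Y Z D v f) (h' : ∀ x ∈ D, f x = g x) :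
    Rel p X Y Z D v g := by
  obtain ⟨L, h1, h2, h3, h4⟩ := h
  exact ⟨L, h1, h2, h3, fun x hx => h' x hx ▸ h4 x hx⟩

namespace RV

instance : Add (RV p X Y Z D) := ⟨fun a b => ⟨_, _, a.r.add b.r⟩⟩
instance : Mul (RV p X Y Z D) := ⟨fun a b => ⟨_, _, a.r.mul b.r⟩⟩
noncomputable instance : Cst (RV p X Y Z D) := ⟨fun n e => ⟨_, fun _ => Cst.c n e,
  Rel.mon n e 0 0 0 0 0 fun x _ => by simp [c_real]⟩⟩
noncomputable instance : Sub (RV p X Y Z D) := ⟨fun a b => ⟨_, fun x => a.f x - b.f x,
  (a + Cst.c (-1) 0 * b).r.congr fun x _ => by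
    change a.f x + (Cst.c (-1) 0 : ℝ) * b.f x = _
    simp [c_real, sub_eq_add_neg]⟩⟩

variable (a b : RV p X Y Z D) (x : P)

lemma add_f : (a + b).f x = a.f x + b.f x := rfl
lemma mul_f : (a * b).f x = a.f x * b.f x := rfl
lemma sub_f : (a - b).f x = a.f x - b.f x := rfl
lemma c_f (n : ℤ) (e : ℕ) : (Cst.c n e : RV p X Y Z D).f x = Cst.c n e := rfl

lemma hor_f (L : List (RV p X Y Z D)) : (hor a L).f x = hor (a.f x) (L.map fun b => b.f x) := by
  induction L with
  | nil => rfl
  | cons b L ih =>
    cases L with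
    | nil => rfl
    | cons b' L => exact congrArg (fun t => b.f x + a.f x * t) ih

lemma ev1_f (e : ℕ) (L : List ℤ) : (ev1 e L a).f x = ev1 e L (a.f x) := by
  rw [ev1, hor_f, List.map_map]; rfl

lemma ev2_f (e : ℕ) (M : List (List ℤ)) : (ev2 e M a b).f x = ev2 e M (a.f x) (b.f x) := by
  rw [ev2, hor_f, List.map_map]
  exact congrArg _ (List.map_congr_left fun L _ => ev1_f a x e L)

end RV

end Pool.Agent.MP_6b3e96_gt.H77
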