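import Mathlib

/-!
Laurent polynomials in three variables packed into big integers, with verified extraction of
linear and norm information.
-/

open Finset

namespace Pool.Agent.MP_6b3e96_gt.H77

/-- Packing parameters: bits per digit, digits per row, rows per level. -/
structure KP where
  β : ℕ
  aw : ℕ
  az : ℕ

/-- A packed polynomial `n / (2 ^ e X ^ a Y ^ b)` with norm bound `l` and degree bounds. -/
structure KV where
  n : ℤ
  l : ℕ
  e : ℕ
  a : ℕ
  b : ℕ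
  dx : ℕ
  dy : ℕ
  dd : ℕ

namespace KV

/-- Raise the exponents of the denominator. -/
def up (p : KP) (v : KV) (e a b : ℕ) : KV :=
  ⟨v.n <<< ((e - v.e) + p.β * (p.aw * (a - v.a) + (b - v.b))), v.l <<< (e - v.e), e, a, b,
    v.dx + (a - v.a), v.dy + (b - v.b), v.dd⟩

/-- Sum with equal denominators. -/
def add0 (v w : KV) : KV :=
  ⟨v.n + w.n, v.l + w.l, v.e, v.a, v.b, max v.dx w.dx, max v.dy w.dy, max v.dd w.dd⟩

/-- Sum. -/
def add (p : KP) (v w : KV) : KV :=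
  add0 (v.up p (max v.e w.e) (max v.a w.a) (max v.b w.b))
    (w.up p (max v.e w.e) (max v.a w.a) (max v.b w.b))

/-- Product. -/
def mul (v w : KV) : KV :=
  ⟨v.n * w.n, v.l * w.l, v.e + w.e, v.a + w.a, v.b + w.b, v.dx + w.dx, v.dy + w.dy, v.dd + w.dd⟩

/-- A monomial. -/
def mon (p : KP) (c : ℤ) (e a b i j k : ℕ) : KV :=
  ⟨c <<< (p.β * (j + p.aw * (i + p.az * k))), c.natAbs, e, a, b, i, j, k⟩

end KV

/-- The number with `K` digits equal to half the base. -/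
def hones (β K : ℕ) : ℕ := ((1 <<< (β * K) - 1) / (1 <<< β - 1)) <<< (β - 1)

/-- The positive parts of the balanced digits. -/
def posP (β H N : ℕ) : ℕ := N &&& ((N &&& H) - (N &&& H) >>> (β - 1))

/-- The sum of the absolute values of the balanced digits. -/
def l1n (β K : ℕ) (n : ℤ) : ℕ :=
  posP β (hones β K) (n + hones β K).toNat % (1 <<< β - 1) +
    (posP β (hones β K) (n + hones β K).toNat - n).toNat % (1 <<< β - 1)

/-- One balanced digit. -/
def dgt (β K i : ℕ) (n : ℤ) : ℤ :=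
  ((n + hones β K).toNat >>> (β * i) % 1 <<< β : ℕ) - (1 <<< (β - 1) : ℕ)

lemma sum_succ_digit (B K : ℕ) (a : ℕ → ℕ) : ∑ m ∈ range (K + 1), a m * B ^ m =
    B * ∑ m ∈ range K, a (m + 1) * B ^ m + a 0 := by
  rw [sum_range_succ', mul_sum]
  simp only [pow_succ, pow_zero, mul_one]
  congr 1
  exact sum_congr rfl fun m _ => by ring

lemma land_sum (β K : ℕ) (a b : ℕ → ℕ) (ha : ∀ m, a m < 2 ^ β) (hb : ∀ m, b m < 2 ^ β) :
    (∑ m ∈ range K, a m * (2 ^ β) ^ m) &&& (∑ m ∈ range K, b m * (2 ^ β) ^ m) =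
      ∑ m ∈ range K, (a m &&& b m) * (2 ^ β) ^ m := by
  induction K generalizing a b with
  | zero => simp
  | succ K ih =>
    rw [sum_succ_digit, sum_succ_digit, sum_succ_digit, ← ih _ _ (fun m => ha _) fun m => hb _]
    refine Nat.eq_of_testBit_eq fun j => ?_
    rw [Nat.testBit_and, Nat.testBit_two_pow_mul_add _ (ha 0), Nat.testBit_two_pow_mul_add _ (hb 0),
      Nat.testBit_two_pow_mul_add _ (Nat.and_lt_two_pow _ (hb 0))]
    split_ifs <;> simp

lemma digit_sum (B K i : ℕ) (a : ℕ → ℕ) (ha : ∀ m, a m < B) (hi : i < K) :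
    (∑ m ∈ range K, a m * B ^ m) / B ^ i % B = a i := by
  induction i generalizing K a with
  | zero =>
    obtain ⟨K, rfl⟩ := Nat.exists_eq_succ_of_ne_zero hi.ne'
    rw [sum_succ_digit]; simp [Nat.mod_eq_of_lt (ha 0)]
  | succ i ih =>
    obtain ⟨K, rfl⟩ := Nat.exists_eq_succ_of_ne_zero (show K ≠ 0 by omega)
    rw [sum_succ_digit, pow_succ', ← Nat.div_div_eq_div_mul, Nat.mul_add_div (by have := ha 0; omega),
      Nat.div_eq_of_lt (ha 0), add_zero, ih K _ (fun m => ha _) (by omega)]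

lemma mod_sum (B K : ℕ) (a : ℕ → ℕ) (h : ∑ m ∈ range K, a m < B) :
    (∑ m ∈ range K, a m * (B + 1) ^ m) % B = ∑ m ∈ range K, a m := by
  rw [← Nat.mod_eq_of_lt h, sum_nat_mod, sum_nat_mod _ _ a]
  congr 1
  refine sum_congr rfl fun m _ => ?_
  simpa [Nat.ModEq] using ((Nat.ModEq.pow m (show B + 1 ≡ 1 [MOD B] by simp [Nat.ModEq])).mul_left (a m))

lemma hones_eq (β K : ℕ) :
    hones (β + 1) K = ∑ m ∈ range K, 2 ^ β * (2 ^ (β + 1)) ^ m := by
  rw [hones, Nat.shiftLeft_eq, Nat.one_shiftLeft, Nat.one_shiftLeft, pow_mul,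
    ← Nat.geomSum_eq (Nat.one_lt_two_pow (by omega)), ← mul_sum, mul_comm]
  rfl

lemma shift_eq {β K : ℕ} {c : ℕ → ℤ} (hc : ∀ m, (c m).natAbs < 2 ^ β) :
    (∑ m ∈ range K, c m * (2 ^ (β + 1)) ^ m + hones (β + 1) K).toNat =
      ∑ m ∈ range K, (c m + (2 ^ β : ℕ)).toNat * (2 ^ (β + 1)) ^ m := by
  rw [hones_eq, ← Int.toNat_natCast (∑ m ∈ range K, (c m + (2 ^ β : ℕ)).toNat * _)]
  congr 1
  rw [Nat.cast_sum, Nat.cast_sum, ← sum_add_distrib]
  refine sum_congr rfl fun m _ => ?_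
  rw [Nat.cast_mul, Nat.cast_mul, Int.toNat_of_nonneg (by have := hc m; omega)]
  push_cast
  ring

lemma dgt_eq {β K i l : ℕ} (hl : 2 * l + 2 ≤ 2 ^ β) {c : ℕ → ℤ} (hc : ∀ m, (c m).natAbs ≤ l)
    (hi : i < K) : dgt β K i (∑ m ∈ range K, c m * (2 ^ β) ^ m) = c i := by
  obtain ⟨β, rfl⟩ := Nat.exists_eq_succ_of_ne_zero (show β ≠ 0 by rintro rfl; omega)
  have h1 : ∀ m, (c m).natAbs < 2 ^ β := fun m => by have := hc m; omega
  rw [dgt, shift_eq h1, Nat.shiftRight_eq_div_pow, pow_mul, Nat.one_shiftLeft, Nat.one_shiftLeft,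
    digit_sum _ _ _ _ (fun m => by have := h1 m; omega) hi]
  have := h1 i
  simp only [Nat.succ_sub_one]
  omega

lemma l1n_eq {β K l : ℕ} (hl : 2 * l + 2 ≤ 2 ^ β) {c : ℕ → ℤ} (hc : ∀ m, (c m).natAbs ≤ l)
    (hs : ∑ m ∈ range K, (c m).natAbs ≤ l) :
    l1n β K (∑ m ∈ range K, c m * (2 ^ β) ^ m) = ∑ m ∈ range K, (c m).natAbs := by
  obtain ⟨β, rfl⟩ := Nat.exists_eq_succ_of_ne_zero (show β ≠ 0 by rintro rfl; omega)
  have h0 : 0 < 2 ^ β := by positivity
  have h1 : ∀ m, (c m).natAbs < 2 ^ β := fun m => by have := hc m; omega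
  have h2 : ∀ m, (c m + (2 ^ β : ℕ)).toNat < 2 ^ (β + 1) := fun m => by have := h1 m; omega
  have h3 : ∀ m, (c m + (2 ^ β : ℕ)).toNat &&& 2 ^ β = if 0 ≤ c m then 2 ^ β else 0 := fun m => by
    have := h1 m
    rw [Nat.and_two_pow]
    split_ifs with h
    · rw [Nat.testBit_of_two_pow_le_and_two_pow_add_one_gt (by omega) (h2 m)]; simp
    · rw [Nat.testBit_lt_two_pow (by omega)]; simp
  have h4 : posP (β + 1) (hones (β + 1) K)
      (∑ m ∈ range K, c m * (2 ^ (β + 1)) ^ m + hones (β + 1) K).toNat =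
      ∑ m ∈ range K, (c m).toNat * (2 ^ (β + 1)) ^ m := by
    have h5 : ∑ m ∈ range K, (if 0 ≤ c m then 2 ^ β else 0) * (2 ^ (β + 1)) ^ m =
        2 ^ β * ∑ m ∈ range K, (if 0 ≤ c m then 1 else 0) * (2 ^ (β + 1)) ^ m := by
      rw [mul_sum]; exact sum_congr rfl fun m _ => by split_ifs <;> simp
    have h6 : ∑ m ∈ range K, (if 0 ≤ c m then 2 ^ β - 1 else 0) * (2 ^ (β + 1)) ^ m =
        (2 ^ β - 1) * ∑ m ∈ range K, (if 0 ≤ c m then 1 else 0) * (2 ^ (β + 1)) ^ m := by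
      rw [mul_sum]; exact sum_congr rfl fun m _ => by split_ifs <;> simp
    rw [posP, shift_eq h1, hones_eq, land_sum _ _ _ _ h2 fun m => by omega]
    simp only [h3]
    rw [h5, Nat.succ_sub_one, Nat.shiftRight_eq_div_pow, Nat.mul_div_cancel_left _ h0,
      ← Nat.sub_one_mul, ← h6, land_sum _ _ _ _ h2 fun m => by split_ifs <;> omega]
    refine sum_congr rfl fun m _ => ?_
    have := h1 m
    split_ifs with h
    · rw [Nat.and_two_pow_sub_one_eq_mod, show (c m + (2 ^ β : ℕ)).toNat = (c m).toNat + 2 ^ β by omega,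
        Nat.add_mod_right, Nat.mod_eq_of_lt (by omega)]
    · simp [show (c m).toNat = 0 by omega]
  have h7 : ((∑ m ∈ range K, (c m).toNat * (2 ^ (β + 1)) ^ m : ℕ) -
      ∑ m ∈ range K, c m * (2 ^ (β + 1)) ^ m).toNat =
      ∑ m ∈ range K, (-c m).toNat * (2 ^ (β + 1)) ^ m := by
    rw [← Int.toNat_natCast (∑ m ∈ range K, (-c m).toNat * _)]
    congr 1
    rw [Nat.cast_sum, Nat.cast_sum, ← sum_sub_distrib]
    refine sum_congr rfl fun m _ => ?_
    push_cast
    rw [← sub_mul, show ((c m).toNat : ℤ) - c m = (-c m).toNat by omega]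
  have h8 : ∑ m ∈ range K, (c m).toNat + ∑ m ∈ range K, (-c m).toNat = ∑ m ∈ range K, (c m).natAbs := by
    rw [← sum_add_distrib]; exact sum_congr rfl fun m _ => by omega
  rw [l1n, Nat.succ_eq_add_one, h4, h7, Nat.one_shiftLeft]
  obtain ⟨B, hB⟩ : ∃ B, 2 ^ (β + 1) = B + 1 := Nat.exists_eq_succ_of_ne_zero (by positivity)
  rw [hB] at hl ⊢
  rw [Nat.add_sub_cancel, mod_sum _ _ _ (by omega), mod_sum _ _ _ (by omega), h8]

/-- Formal sums of monomials. -/
abbrev ML := List ((ℕ × ℕ × ℕ) × ℤ)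

/-- Evaluation of a formal sum. -/
def ML.ev {R : Type} [CommRing R] (L : ML) (x y z : R) : R :=
  (L.map fun t => (t.2 : R) * (x ^ t.1.1 * y ^ t.1.2.1 * z ^ t.1.2.2)).sum

/-- The sum of the absolute values of the coefficients. -/
def ML.nm (L : ML) : ℕ := (L.map fun t => t.2.natAbs).sum

/-- The product of formal sums. -/
def ML.mul (L M : ML) : ML := L.flatMap fun t => M.map fun s => (t.1 + s.1, t.2 * s.2)

lemma ML.ev_append {R : Type} [CommRing R] (L M : ML) (x y z : R) :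
    ML.ev (L ++ M) x y z = L.ev x y z + M.ev x y z := by simp [ML.ev]

lemma ML.ev_mul {R : Type} [CommRing R] (L M : ML) (x y z : R) :
    (L.mul M).ev x y z = L.ev x y z * M.ev x y z := by
  induction L with
  | nil => simp [ML.ev, ML.mul]
  | cons t L ih =>
    rw [ML.mul, List.flatMap_cons, ML.ev_append, ← ML.mul, ih]
    simp only [ML.ev, List.map_cons, List.sum_cons, add_mul, List.map_map]
    congr 1
    rw [← List.sum_map_mul_left]
    refine congrArg (List.sum (α := R)) (List.map_congr_left fun s _ => ?_)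
    simp only [Function.comp, Prod.fst_add, Prod.snd_add, pow_add, Int.cast_mul]
    ring

lemma ML.nm_mul (L M : ML) : (L.mul M).nm = L.nm * M.nm := by
  induction L with
  | nil => simp [ML.nm, ML.mul]
  | cons t L ih =>
    rw [ML.mul, List.flatMap_cons, ML.nm, List.map_append, List.sum_append, ← ML.mul, ← ML.nm, ← ML.nm,
      ih]
    simp [ML.nm, add_mul, ← List.sum_map_mul_left, Function.comp_def, Int.natAbs_mul]

variable {P : Type} (p : KP) (X Y Z : P → ℂ) (D : Set P)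

/-- The packed value `v` represents the function `f` on `D`. -/
def Rel (v : KV) (f : P → ℝ) : Prop :=
  ∃ L : ML, (∀ t ∈ L, t.1.1 ≤ v.dx ∧ t.1.2.1 ≤ v.dy ∧ t.1.2.2 ≤ v.dd) ∧ L.nm ≤ v.l ∧
    L.ev ((2 ^ p.β) ^ p.aw) (2 ^ p.β) ((2 ^ p.β) ^ (p.aw * p.az)) = v.n ∧
    ∀ x ∈ D, (f x : ℂ) * (2 ^ v.e * X x ^ v.a * Y x ^ v.b) = L.ev (X x) (Y x) (Z x)

variable {p X Y Z D} {v w : KV} {f g : P → ℝ}

lemma Rel.mul (h : Rel p X Y Z D v f) (h' : Rel p X Y Z D w g) :
    Rel p X Y Z D (v.mul w) fun x => f x * g x := by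
  obtain ⟨L, h1, h2, h3, h4⟩ := h
  obtain ⟨M, k1, k2, k3, k4⟩ := h'
  refine ⟨L.mul M, fun t ht => ?_, ?_, ?_, fun x hx => ?_⟩
  · simp only [ML.mul, List.mem_flatMap, List.mem_map] at ht
    obtain ⟨a, ha, b, hb, rfl⟩ := ht
    have := h1 a ha
    have := k1 b hb
    simp only [KV.mul, Prod.fst_add, Prod.snd_add]
    omega
  · rw [ML.nm_mul]; exact Nat.mul_le_mul h2 k2
  · rw [ML.ev_mul, h3, k3]; rfl
  · rw [ML.ev_mul, ← h4 x hx, ← k4 x hx]
    simp only [KV.mul, pow_add, Complex.ofReal_mul]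
    ring

lemma Rel.mon (c : ℤ) (e a b i j k : ℕ)
    (h : ∀ x ∈ D, (f x : ℂ) * (2 ^ e * X x ^ a * Y x ^ b) = c * (X x ^ i * Y x ^ j * Z x ^ k)) :
    Rel p X Y Z D (KV.mon p c e a b i j k) f := by
  refine ⟨[((i, j, k), c)], by simp [KV.mon], by simp [KV.mon, ML.nm], ?_, fun x hx => ?_⟩
  · simp only [ML.ev, KV.mon, Int.shiftLeft_eq, pow_mul, pow_add, mul_add, List.map_cons,
      List.map_nil, List.sum_cons, List.sum_nil, Int.cast_id]
    ring
  · simpa [ML.ev, KV.mon] using h x hx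

lemma Rel.up (h : Rel p X Y Z D v f) {e a b : ℕ} (he : v.e ≤ e) (ha : v.a ≤ a) (hb : v.b ≤ b) :
    Rel p X Y Z D (v.up p e a b) f := by
  obtain ⟨e, rfl⟩ := Nat.exists_eq_add_of_le he
  obtain ⟨a, rfl⟩ := Nat.exists_eq_add_of_le ha
  obtain ⟨b, rfl⟩ := Nat.exists_eq_add_of_le hb
  obtain ⟨L, h1, h2, h3, h4⟩ := h.mul
    (Rel.mon (f := fun _ => 1) (2 ^ e) e a b a b 0 fun x _ => by push_cast; ring)
  refine ⟨L, ?_, ?_, ?_, ?_⟩
  · simpa [KV.up, KV.mul, KV.mon] using h1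
  · simpa [KV.up, KV.mul, KV.mon, Nat.shiftLeft_eq] using h2
  · rw [h3]
    simp only [KV.up, KV.mul, KV.mon, Int.shiftLeft_eq, Nat.add_sub_cancel_left, pow_add, mul_add,
      mul_zero, add_zero]
    ring
  · simpa [KV.up, KV.mul, KV.mon] using h4

lemma Rel.add (h : Rel p X Y Z D v f) (h' : Rel p X Y Z D w g) :
    Rel p X Y Z D (v.add p w) fun x => f x + g x := by
  obtain ⟨L, h1, h2, h3, h4⟩ := h.up (le_max_left _ w.e) (le_max_left _ w.a) (le_max_left _ w.b)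
  obtain ⟨M, k1, k2, k3, k4⟩ := h'.up (le_max_right v.e _) (le_max_right v.a _) (le_max_right v.b _)
  refine ⟨L ++ M, fun t ht => ?_, ?_, ?_, fun x hx => ?_⟩
  · simp only [KV.add, KV.add0]
    rcases List.mem_append.1 ht with ht | ht
    · have := h1 t ht; omega
    · have := k1 t ht; omega
  · simpa [ML.nm, KV.add, KV.add0] using Nat.add_le_add h2 k2
  · rw [ML.ev_append, h3, k3]; rfl
  · rw [ML.ev_append, ← h4 x hx, ← k4 x hx, Complex.ofReal_add, add_mul]; rfl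

/-- The number of digits. -/
def KV.len (p : KP) (v : KV) : ℕ := p.aw * p.az * (v.dd + 1)

/-- The size conditions under which the digits are the coefficients. -/
def KV.ok (p : KP) (v : KV) : Bool :=
  Nat.blt v.dx p.az && Nat.blt v.dy p.aw && Nat.ble (2 * v.l + 2) (1 <<< p.β)

lemma Rel.coef (h : Rel p X Y Z D v f) (hk : v.ok p = true) :
    ∃ c : ℕ → ℤ, (∀ m, (c m).natAbs ≤ v.l) ∧ ∑ m ∈ range (v.len p), (c m).natAbs ≤ v.l ∧
      v.n = ∑ m ∈ range (v.len p), c m * (2 ^ p.β) ^ m ∧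
      ∀ x ∈ D, (f x : ℂ) * (2 ^ v.e * X x ^ v.a * Y x ^ v.b) = ∑ m ∈ range (v.len p),
        c m * (X x ^ (m / p.aw % p.az) * Y x ^ (m % p.aw) * Z x ^ (m / p.aw / p.az)) := by
  obtain ⟨L, h1, h2, h3, h4⟩ := h
  simp only [KV.ok, Bool.and_eq_true, Nat.blt_eq] at hk
  obtain ⟨⟨k1, k2⟩, -⟩ := hk
  have key : ∃ c : ℕ → ℤ, (∀ s : Finset ℕ, ∑ m ∈ s, (c m).natAbs ≤ L.nm) ∧
      ∀ (R : Type) [CommRing R] (x y z : R), L.ev x y z = ∑ m ∈ range (v.len p),
        c m * (x ^ (m / p.aw % p.az) * y ^ (m % p.aw) * z ^ (m / p.aw / p.az)) := by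
    clear h2 h3 h4
    induction L with
    | nil => exact ⟨0, by simp, by simp [ML.ev]⟩
    | cons t L ih =>
      obtain ⟨c, c1, c2⟩ := ih fun s hs => h1 s (List.mem_cons_of_mem _ hs)
      obtain ⟨⟨i, j, l⟩, a⟩ := t
      obtain ⟨t1, t2, t3⟩ : i ≤ _ ∧ j ≤ _ ∧ l ≤ _ := h1 _ List.mem_cons_self
      have e1 : (j + p.aw * (i + p.az * l)) / p.aw = i + p.az * l := by
        rw [Nat.add_mul_div_left _ _ (by omega), Nat.div_eq_of_lt (by omega), zero_add]
      refine ⟨fun m => (if m = j + p.aw * (i + p.az * l) then a else 0) + c m, fun s => ?_,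
        fun R _ x y z => ?_⟩
      · refine (sum_le_sum fun m _ => Int.natAbs_add_le _ _).trans ?_
        rw [sum_add_distrib]
        refine Nat.add_le_add ?_ (c1 s)
        simp only [apply_ite Int.natAbs, Int.natAbs_zero, sum_ite_eq']
        split_ifs <;> simp
      · have hm : j + p.aw * (i + p.az * l) ∈ range (v.len p) := by
          have h5 : i + p.az * l + 1 ≤ p.az * (v.dd + 1) := by nlinarith
          have h6 := Nat.mul_le_mul_left p.aw h5
          rw [mul_add p.aw _ 1, mul_one, ← mul_assoc] at h6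
          rw [mem_range, KV.len]; omega
        simp only [Int.cast_add, add_mul, sum_add_distrib, ← c2, Int.cast_ite, Int.cast_zero, ite_mul,
          zero_mul, sum_ite_eq', hm, if_true, e1]
        rw [Nat.add_mul_mod_self_left, Nat.add_mul_mod_self_left, Nat.mod_eq_of_lt (by omega),
          Nat.mod_eq_of_lt (by omega), Nat.add_mul_div_left _ _ (by omega),
          Nat.div_eq_of_lt (by omega), zero_add]
        simp [ML.ev]
  obtain ⟨c, c1, c2⟩ := key
  refine ⟨c, fun m => le_trans (by simpa using c1 {m}) h2, (c1 _).trans h2, ?_,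
    fun x hx => by rw [h4 x hx, c2]⟩
  rw [← h3, c2]
  refine sum_congr rfl fun m _ => ?_
  simp only [← pow_mul, ← pow_add, Int.cast_id]
  congr 2
  have e1 := Nat.mod_add_div m p.aw
  have e2 := Nat.mod_add_div (m / p.aw) p.az
  calc _ = p.β * (m % p.aw + p.aw * (m / p.aw % p.az + p.az * (m / p.aw / p.az))) := by ring
    _ = _ := by rw [e2, e1]

lemma KV.ok_le (hk : v.ok p = true) : v.dx < p.az ∧ v.dy < p.aw ∧ 2 * v.l + 2 ≤ 2 ^ p.β := by
  simpa [KV.ok, Nat.one_shiftLeft, and_assoc] using hk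

/-- The sum of the absolute values of the digits. -/
def KV.l1 (p : KP) (v : KV) : ℕ := l1n p.β (v.len p) v.n

lemma Rel.bound (h : Rel p X Y Z D v f) (hk : v.ok p = true) {x : P} (hx : x ∈ D)
    (h1 : ‖X x‖ = 1) (h2 : ‖Y x‖ = 1) (h3 : ‖Z x‖ ≤ 1) : |f x| * 2 ^ v.e ≤ v.l1 p := by
  obtain ⟨c, c0, c1, c3, c2⟩ := h.coef hk
  have h4 := congrArg norm (c2 x hx)
  simp only [norm_mul, norm_pow, h1, h2, one_pow, mul_one, Complex.norm_real, Real.norm_eq_abs,
    Complex.norm_ofNat] at h4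
  rw [h4, KV.l1, c3, l1n_eq (KV.ok_le hk).2.2 c0 c1]
  push_cast
  refine norm_sum_le_of_le _ fun m _ => ?_
  simp only [norm_mul, norm_pow, h1, h2, one_pow, one_mul, Complex.norm_intCast, Nat.cast_natAbs,
    Int.cast_abs]
  exact mul_le_of_le_one_right (abs_nonneg _) (pow_le_one₀ (norm_nonneg _) h3)

end Pool.Agent.MP_6b3e96_gt.H77
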