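import Pool.Agent.MP_6b3e96_gt.H77.Spec
import Pool.Agent.MP_6b3e96_gt.H77.Data

/-!
Statements of the second group of independent steps.
-/

open scoped ContDiff Topology RealInnerProductSpace MeasureTheory Real
open Set Filter Metric MeasureTheory Complex

noncomputable section

namespace Pool.Agent.MP_6b3e96_gt.H77

/-- The approximate conformal factor. -/
def om0 (U : ℂ → ℝ) (w : ℂ) : ℝ := Real.log (U w / ‖w‖) / 2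

/-- The residual of the approximate solution. -/
def res (κ : ℝ) (U : ℂ → ℝ) (w : ℂ) : ℝ := lap (om0 U) w + κ * (U w / ‖w‖) - ‖w‖ / U w

/-- A family of approximate solutions. -/
structure Appr (κ : ℝ → ℝ) (U : ℝ → ℂ → ℝ) (β : ℂ → ℝ) : Prop where
  sm : ∀ d, ContDiffOn ℝ ∞ (U d) {0}ᶜ
  smz : ∀ d, ContDiff ℝ ∞ fun z => U d (z ^ 2)
  ev : ∀ d w, U d (sr 0 w) = U d w
  sw : ∀ d w, U d (swp w) = U d w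
  kb : ∀ d ∈ Icc (-1 : ℝ) 1, 0.0318 ≤ κ d ∧ κ d ≤ 0.03281
  bd : ∀ d ∈ Icc (-1 : ℝ) 1, ∀ w ∈ Sq, 0.78 ≤ U d w ∧ U d w ≤ 1.217 ∧ ‖w‖ ≤ 1.23 * U d w
  neu : ∀ d ∈ Icc (-1 : ℝ) 1, ∀ w ∈ Sq, w.re = 1 → d1 (om0 (U d)) w = 0
  rs : ∀ d ∈ Icc (-1 : ℝ) 1, ∀ w ∈ Sq, w ≠ 0 → |res (κ d) (U d) w| ≤ 0.0001 + 0.000001 / mx w
  βc : Continuous β
  βb : ∀ w ∈ Sq, 0 ≤ β w ∧ β w ≤ 10
  βi : ∫ w in Sq, β w ^ 2 ≤ 0.55 ^ 2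
  lip : ∀ d ∈ Icc (-1 : ℝ) 1, ∀ w ∈ Sq, w ≠ 0 →
    |2 * κ d * (U d w / ‖w‖) + 2 * (‖w‖ / U d w) - 9 / 5| + 0.002 ≤ β w + 0.055 / mx w
  grad : ∀ d ∈ Icc (-1 : ℝ) 1, ∀ w ∈ Sq, w ≠ 0 →
    |d2 (om0 (U d)) w| ≤ w.im / (2 * ‖w‖ ^ 2) + 0.05
  cont : ∀ e > 0, ∃ δ > 0, ∀ d ∈ Icc (-1 : ℝ) 1, ∀ d' ∈ Icc (-1 : ℝ) 1, |d - d'| < δ →
    |κ d - κ d'| ≤ e ∧ ∀ w ∈ Sq, w ≠ 0 → |U d w - U d' w| ≤ e ∧
      |res (κ d) (U d) w - res (κ d') (U d') w| ≤ e / mx w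

/-- A symmetric solution of the sinh-Gordon equation away from the origin. -/
structure Om1 (κ : ℝ) (om : ℂ → ℝ) : Prop where
  pos : 0 < κ
  sm : ContDiffOn ℝ ∞ om (box (-2) 2 \ {0})
  sy : ∀ i w, om (sr i w) = om w
  sw : ∀ w, om (swp w) = om w
  eqw : ∀ w ∈ box (-2) 2, w ≠ 0 → lap om w = Real.exp (-2 * om w) - κ * Real.exp (2 * om w)

/-- Exact solutions near the approximate ones. -/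
def SolveStmt : Prop :=
  FixStmt → FoldStmt → RegStmt → ∀ κ U β, Appr κ U β → ∃ om : ℝ → ℂ → ℝ,
    (∀ d ∈ Icc (-1 : ℝ) 1, Om1 (κ d) (om d) ∧
      (∀ w ∈ Sq, w ≠ 0 → |om d w - om0 (U d) w| ≤ 0.0002) ∧
      ∃ L, Tendsto (fun w => om d w + Real.log ‖w‖ / 2) (𝓝[≠] 0) (𝓝 L)) ∧
    ∀ e > 0, ∃ δ > 0, ∀ d ∈ Icc (-1 : ℝ) 1, ∀ d' ∈ Icc (-1 : ℝ) 1, |d - d'| < δ →
      ∀ s ∈ Icc (0 : ℝ) 1, |om d ⟨s, 1⟩ - om d' ⟨s, 1⟩| ≤ e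

/-- The solution in the plane of the square root. -/
def LiftStmt : Prop :=
  GreenStmt → RegStmt → ∀ (κ L : ℝ) (om : ℂ → ℝ), Om1 κ om →
    Tendsto (fun w => om w + Real.log ‖w‖ / 2) (𝓝[≠] 0) (𝓝 L) →
    ∃ u : ℂ → ℝ, ContDiffOn ℝ ∞ u Dz ∧
      (∀ z ∈ Dz, z ≠ 0 → u z = om (z ^ 2) + Real.log (2 * √κ * ‖z‖)) ∧
      ∀ z ∈ Dz, lap u z = 16 * κ * ‖z‖ ^ 4 * Real.exp (-2 * u z) - Real.exp (2 * u z)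

/-- The bounds for the exact solution. -/
def GradStmt : Prop :=
  BrandtStmt → ∀ κ U β, Appr κ U β → ∀ d ∈ Icc (-1 : ℝ) 1, ∀ om u : ℂ → ℝ, Om1 (κ d) om →
    (∀ w ∈ Sq, w ≠ 0 → |om w - om0 (U d) w| ≤ 0.0002) → ContDiffOn ℝ ∞ u Dz →
    (∀ z ∈ Dz, z ≠ 0 → u z = om (z ^ 2) + Real.log (2 * √(κ d) * ‖z‖)) →
    (∀ z ∈ Dz, lap u z = 16 * κ d * ‖z‖ ^ 4 * Real.exp (-2 * u z) - Real.exp (2 * u z)) →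
    Om (κ d) om u

/-- The closing condition holds for some value of the parameter. -/
def CloseStmt : Prop :=
  ∀ om y n p : ℝ → ℝ → ℝ,
    (∀ d ∈ Icc (-1 : ℝ) 1, ContinuousOn (om d) (Icc 0 1) ∧
      (∀ s ∈ Icc (0 : ℝ) 1, |om d s - Real.log (N2 id d (s * s) 1) / 2| ≤ 0.0002) ∧
      Clos (fun s => √(kap d) * Real.exp (om d s)) (fun s => Real.exp (-om d s)) (y d) (n d) (p d) ∧
      ∀ s ∈ Icc (0 : ℝ) 1, 0 ≤ y d s ∧ y d s ≤ 1) →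
    (∀ e > 0, ∃ δ > 0, ∀ d ∈ Icc (-1 : ℝ) 1, ∀ d' ∈ Icc (-1 : ℝ) 1, |d - d'| < δ →
      ∀ s ∈ Icc (0 : ℝ) 1, |om d s - om d' s| ≤ e) →
    ∃ d ∈ Icc (-1 : ℝ) 1, y d 1 = 1 / 2

/-- The integrand of the local lower bound. -/
def locI (Vp φ σ₁ σ₂ : ℂ → ℝ) (w : ℂ) : ℝ :=
  d1 φ w ^ 2 + d2 φ w ^ 2 - Vp w * φ w ^ 2 -
    ((d1 φ w - σ₁ w) ^ 2 + (d2 φ w - σ₂ w) ^ 2) / 0.35 -
    (d1 σ₁ w + d2 σ₂ w + Vp w * φ w) ^ 2 * mx w / 0.12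

/-- A certificate for the local matrix. -/
structure Cert (Vp : ℂ → ℝ) (φ σ₁ σ₂ : Fin 4 × Fin 3 → ℂ → ℝ) (L : Fin 3 → ℝ → ℝ) : Prop where
  Vc : ContinuousOn Vp (Sq \ {0})
  Vb : ∀ w ∈ Sq, w ≠ 0 → |Vp w| ≤ 2.5 + 0.06 / mx w
  sm : ∀ a, ContDiff ℝ 1 (φ a) ∧ ContDiff ℝ 1 (σ₁ a) ∧ ContDiff ℝ 1 (σ₂ a)
  Lc : ∀ m, Continuous (L m)
  L0 : ∀ t, L 0 t = 1
  dual : ∀ a i m, ∫ t in (0 : ℝ)..1, φ a (sp i t) * L m t = if a = (i, m) then 1 else 0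
  span : ∀ a i, ∃ c : Fin 3 → ℝ, ∀ t, ![σ₂, σ₁, σ₁, σ₂] i a (sp i t) = ∑ m, c m * L m t
  gram : ∀ y : Fin 4 × Fin 3 → ℝ, ∑ a, ∑ b, (lamM a b : ℝ) * y a * y b ≤
    2 ^ 16 * ∫ w in Sq, locI Vp (fun z => ∑ a, y a * φ a z) (fun z => ∑ a, y a * σ₁ a z)
      (fun z => ∑ a, y a * σ₂ a z) w

/-- From the piece and the certificate to the surface. -/
def FinalStmt : Prop :=
  LocalStmt → AlgStmt → GroupStmt → GlobalStmt → CellStmt →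
    ∀ (P : Pc) Vp φ σ₁ σ₂ L, Cert Vp φ σ₁ σ₂ L → (∀ w ∈ Sq, w ≠ 0 → P.V w ≤ Vp w) →
      ∃ S : MinSurf, S.HasGenus 73 ∧ S.IndexLE 138

/-- The upper bound for the potential. -/
def Vp (w : ℂ) : ℝ := ev2 26 pvT (mx w) ((min w.re w.im / mx w) ^ 2) / mx w

/-- The certificate exists. -/
def CertStmt : Prop := ∃ φ σ₁ σ₂ L, Cert Vp φ σ₁ σ₂ L

end Pool.Agent.MP_6b3e96_gt.H77
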